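import Pool.Agent.L0h86.XF.StmB
import Pool.Agent.L0h2.P.KYJ

/-!
# Project XF: the joint law on the regular sets (helper63, after `Pool/Agent/L0h2/P/KYJ.lean`)
-/

set_option autoImplicit false
set_option linter.unusedSectionVars false
set_option linter.unusedVariables false
set_option maxHeartbeats 4000000

open scoped Classical

namespace Pool.Agent.L0h86.XF

open Finset
open Pool.Agent.Y703.CX (sm la jj XX)
open Pool.Agent.Y703.CQ (nr sg c2)
open Pool.Agent.N973.ND (Pr m7 uu)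
open Pool.Agent.N916.GB (HB ps)
open Pool.Agent.L0h74.T3 (m3)
open Pool.Agent.L0h74.EV (Cl SE)
open Pool.Agent.L0h74.AP (Cp)
open Pool.Agent.L0h74.EV.KEY (ph CC mem_CC CC_facts CC_disj sm_fill la_fill im_fill ph_fill inj_fill
  hb_box cls_val)
open Pool.Agent.L0h74.KD.KEY (Bil ps_card cl_prime)
open Pool.Agent.L0h2.P (RK KPg S_KEYG Kg card_subt cl_key)

theorem ty_modX {u : ℕ} (hu : 12 ∣ u) (f : Bool) (p : ℕ) : ty f (p % (7 * u)) = ty f p := by
  have h4 : p % (7 * u) % 4 = p % 4 :=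
    Nat.mod_mod_of_dvd p (Dvd.dvd.mul_left ((by norm_num : 4 ∣ 12).trans hu) 7)
  have h3 : p % (7 * u) % 3 = p % 3 :=
    Nat.mod_mod_of_dvd p (Dvd.dvd.mul_left ((by norm_num : 3 ∣ 12).trans hu) 7)
  have h7 : p % (7 * u) % 7 = p % 7 := Nat.mod_mod_of_dvd p (dvd_mul_right 7 u)
  unfold ty mF m3 m7
  rw [h4, h3, h7]

theorem CC_tyX {u z H : ℕ} (hu : 12 ∣ u) (hH : 1 ≤ H) {e : ℕ × ℕ} {p : ℕ} (hp : p ∈ CC u z H e)
    (f : Bool) : ty f p = ty f e.2 := by
  obtain ⟨h1, h2, h3⟩ := (mem_CC hH).1 hp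
  have h5 : p % (7 * u) = e.2 := congrArg Prod.snd h3
  rw [← h5, ty_modX hu]

section
variable {u a X z H k : ℕ} {S₀ : Finset ℕ} {J : Finset (ℕ × ℕ)} {p : J → ℕ}

/-- `kd` in terms of the key -/
theorem kd_keyX (hu : 12 ∣ u) (hH : 1 ≤ H) (h₀ : ∀ q ∈ S₀, q ≤ z) (hp : ∀ i : J, p i ∈ CC u z H i)
    (f : Bool) : kd f (S₀ ∪ univ.image p) = kJ f S₀ J := by
  have hi := inj_fill hH h₀ hp
  have h1 := sm_fill hH h₀ hp
  have h2 := la_fill hH h₀ hp
  have h3 := im_fill hH hp
  set S := S₀ ∪ univ.image p with hS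
  have f3 : ∀ a : ℕ, (((la z S).image (ph u H)).filter fun e => ty f e.2 = a).card =
      ((la z S).filter fun p => ty f p = a).card := by
    intro a
    rw [Finset.filter_image, Finset.card_image_of_injOn]
    · congr 1
      refine Finset.filter_congr fun p _ => ?_
      show ty f (p % (7 * u)) = a ↔ _
      rw [ty_modX hu]
    · intro x hx y hy hxy
      exact hi (Finset.mem_coe.2 (Finset.mem_filter.1 (Finset.mem_coe.1 hx)).1)
        (Finset.mem_coe.2 (Finset.mem_filter.1 (Finset.mem_coe.1 hy)).1) hxy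
  have f4 : ∀ a : ℕ, (S.filter fun p => ty f p = a).card =
      ((sm z S).filter fun p => ty f p = a).card + ((la z S).filter fun p => ty f p = a).card := by
    intro a
    unfold sm la
    rw [Finset.filter_filter, Finset.filter_filter,
      ← Finset.card_filter_add_card_filter_not (s := S.filter fun p => ty f p = a) (fun p => p ≤ z),
      Finset.filter_filter, Finset.filter_filter]
    congr 2
    · apply Finset.filter_congr
      intro p _
      tauto
    · apply Finset.filter_congr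
      intro p _
      tauto
  have h4 : (la z S).image (ph u H) = J := by rw [h2, h3]
  rw [h4] at f3
  unfold kJ kd
  rw [f3, f3, f4 3, f4 1, h1]
  push_cast
  ring

end

/-- `S_BXX` for any decidable equality -/
theorem box_decX (hBX : S_BXX) {t n : ℕ} {s : Fin t → Sy} {ι : Type} [Fintype ι] [inst : DecidableEq ι]
    (lo : LinearOrder ι) {S₀ : Finset ℕ} {τ : Bool → ι → ℕ} {C : ι → Finset ℕ}
    (x : Fin t → Fin n → ZMod 2) (fr : Fin n → Bool) (JR : Fin n → Finset ι) (JS : Finset ι)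
    (X : ι → ℕ) (κ : ℝ) (m : Fin t → ℕ) (mm V Q e N : ℕ) (pat : Fin t → Bool)
    (hmm : ∀ l, m l ≤ mm) (hV : 1 ≤ V) (hVm : ∀ l, V ≤ m l)
    (ht : ∀ l, (s l).d.t < 4) (hA : ∀ l, RecA (s l).d.f (s l).d.A)
    (hκ : 0 ≤ κ) (hCX : ∀ i, (C i).card ≤ X i) (hHB : HB C X κ)
    (hW : ∀ l, ∀ v ∈ (s l).W, PrO (s l).d.f v) (hS₀ : ∀ l, ∀ v ∈ S₀, PrF (s l).d.f v)
    (hdis : ∀ l, ∀ v ∈ S₀, some v ∉ (s l).W)
    (hC : ∀ i, ∀ p ∈ C i, (∀ f, PrF f p) ∧ p ∉ S₀ ∧ (∀ l, some p ∉ (s l).W) ∧ ∀ f, ty f p = τ f i)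
    (hCd : ∀ i l, i ≠ l → Disjoint (C i) (C l))
    (hkd : ∀ l, kW (s l) + kd (s l).d.f S₀ + ((univ.filter fun i => τ (s l).d.f i = 3).card : ℤ) -
      ((univ.filter fun i => τ (s l).d.f i = 1).card : ℤ) = 2 * m l)
    (hL : 6 * mm + 3 * V ≤ (univ.filter fun i => τ false i = 0 ∧ τ true i = 0).card)
    (hJR : ∀ r, ∀ i ∈ JR r, τ (fr r) i = 2 ∧ ∀ q ∈ C i, ∀ l l', (s l).d.f = fr r → (s l').d.f = fr r →
      dg (s l) q + x l r = dg (s l') q + x l' r)
    (sep : ∀ l l' : Fin t, l ≠ l' → (s l).d.f = (s l').d.f → ∃ r, fr r = (s l).d.f ∧ x l r ≠ x l' r)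
    (hQ : ∀ r, Q ≤ (JR r).card)
    (hJS : ∀ i ∈ JS, τ false i = 2 ∧ τ true i = 0) (hQS : Q + e ≤ JS.card)
    (he : ∀ l, (univ.filter fun i => τ (s l).d.f i = 3).card ≤
      (univ.filter fun i => τ (s l).d.f i = 1).card + e)
    (hQ2 : V + (∑ l, (SW (s l) S₀).card + (Kg t + (t * (t + 1) + t * e))) ≤ Q)
    (hN : (∑ l, (2 * (SW (s l) S₀).card + 1)) * Fintype.card ι +
      Fintype.card ι * Fintype.card ι ≤ N) :
    |(((Fintype.piFinset C).filter fun p => NdJ s S₀ (univ.image p) ∧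
        PatS s pat (S₀ ∪ univ.image p)).card : ℝ) -
      amc pat * (((Fintype.piFinset C).filter fun p => NdJ s S₀ (univ.image p)).card : ℝ)| ≤
    (4 * t + 2) * (1 / 2 : ℝ) ^ V *
      (((Fintype.piFinset C).filter fun p => NdJ s S₀ (univ.image p)).card : ℝ) +
    2 * 2 ^ N * (κ * ∏ j, (X j : ℝ)) := by
  have e0 : inst = fun a b => lo.toDecidableEq a b := Subsingleton.elim _ _
  subst e0
  refine (hBX t n s ι S₀ τ C x fr JR JS X κ m mm V Q e pat hmm hV hVm ht hA hκ hCX hHB hW hS₀ hdis hC hCd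
    hkd hL hJR sep hQ hJS hQS he hQ2).trans (add_le_add le_rfl ?_)
  have h3 : 0 ≤ κ * ∏ j, (X j : ℝ) :=
    mul_nonneg hκ (Finset.prod_nonneg fun j _ => by positivity)
  refine mul_le_mul_of_nonneg_right (mul_le_mul_of_nonneg_left ?_ (by norm_num)) h3
  refine pow_le_pow_right₀ (by norm_num) (le_trans ?_ hN)
  exact Nat.add_le_add_left ps_card _

theorem SW_disjX {S₀ : Finset ℕ} {s : Sy} (hdis : ∀ v ∈ S₀, some v ∉ s.W) :
    Disjoint (S₀.image some) s.W := by
  rw [Finset.disjoint_left]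
  intro v hv hv'
  rw [mem_image] at hv
  obtain ⟨a, ha, rfl⟩ := hv
  exact hdis a ha hv'

/-- **The joint law on the regular sets.** -/
theorem t_KYX (hBX : S_BXX) (hKG : S_KEYG) : S_KYX := by
  obtain ⟨C, hC1, hB⟩ := Pool.Agent.N19.GB.t_BIL
  refine ⟨C, hC1, ?_⟩
  intro t n s u a cl fr x cs HY F hF hFl V₀
  obtain ⟨A, hA⟩ : ∃ A : ℕ, A = ∑ l, (kW (s l)).natAbs := ⟨_, rfl⟩
  obtain ⟨w, hw⟩ : ∃ w : ℕ, w = ∑ l, (s l).W.card := ⟨_, rfl⟩
  have hAl : ∀ l, -(A : ℤ) ≤ kW (s l) ∧ kW (s l) ≤ A := by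
    intro l
    have h1 : (kW (s l)).natAbs ≤ A := by
      rw [hA]
      exact single_le_sum (f := fun l => (kW (s l)).natAbs) (fun _ _ => Nat.zero_le _) (mem_univ l)
    omega
  obtain ⟨V, hVd⟩ : ∃ V : ℕ, V = V₀ + 1 := ⟨_, rfl⟩
  obtain ⟨q₀, hq₀⟩ : ∃ q₀ : ℕ, q₀ = V + (w + (Kg t + t * (t + 1))) := ⟨_, rfl⟩
  refine ⟨2 * V + A, 3 * A + 3 * V + q₀, 2 * t + 1, 3 * t + 2 * w + 2, ?_⟩
  intro Kq hKq β X z H k N κ hX hH hz hκ hκz hN
  have hu1 : 1 ≤ u := HY.cp.pos
  have hz1 : 1 ≤ z := hu1.trans hz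
  have hu4 : 4 ∣ u := (by norm_num : 4 ∣ 84).trans HY.dv
  have hu12 : 12 ∣ u := (by norm_num : 12 ∣ 84).trans HY.dv
  have hu84 : 84 ≤ u := Nat.le_of_dvd hu1 HY.dv
  have hmain := hKG u a X z H k N Kq (fun S => NdJ s (sm z S) (la z S)) (PatS s β) (amc β)
    ((4 * t + 2) * (1 / 2 : ℝ) ^ V₀) (3 ^ ((3 * t + 2 * w + 2) * (k ^ 2 + 1)) * κ) hu1 hX hH hz1 hN
    (by positivity) (by positivity) ?_
  · exact hmain
  intro S₀ J hk
  have hP0 : (0 : ℝ) < ((∏ p ∈ S₀, p : ℕ) : ℝ) := by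
    exact_mod_cast Finset.prod_pos fun p hp => (cl_prime (hk.cl p hp)).pos
  have hErr : 0 ≤ (3 : ℝ) ^ ((3 * t + 2 * w + 2) * (k ^ 2 + 1)) * κ *
      (X / ((∏ p ∈ S₀, p : ℕ) : ℝ)) := by positivity
  by_cases hemp : (Fintype.piFinset fun i : J => CC u z H i) = ∅
  · rw [hemp]
    simp only [filter_empty, card_empty, Nat.cast_zero, mul_zero, sub_zero, abs_zero, zero_add]
    exact hErr
  obtain ⟨p₀, hp₀⟩ := Finset.nonempty_iff_ne_empty.2 hemp
  rw [Fintype.mem_piFinset] at hp₀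
  have hkq := hKq S₀ J hk.kq
  have hcl := cl_key (a := a) hH hk.le hp₀ hk.cl hk.cls
  have hkd := kd_keyX hu12 hH hk.le hp₀
  -- the largest `kd`
  obtain ⟨K, hK⟩ : ∃ K : ℕ, K = F.sup fun f => (kJ f S₀ J).toNat := ⟨_, rfl⟩
  obtain ⟨f₀, hf₀, hKf₀⟩ : ∃ f₀ ∈ F, kJ f₀ S₀ J = K := by
    obtain ⟨f₀, hf₀, h1⟩ := Finset.exists_mem_eq_sup F hF fun f => (kJ f S₀ J).toNat
    refine ⟨f₀, hf₀, ?_⟩
    have h2 := (hkq f₀ hf₀).1
    rw [hK, h1]
    push_cast at h2
    omega
  have hKf : ∀ f ∈ F, kJ f S₀ J ≤ K := by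
    intro f hf
    have h1 : (kJ f S₀ J).toNat ≤ K := by
      rw [hK]
      exact Finset.le_sup (f := fun f => (kJ f S₀ J).toNat) hf
    omega
  obtain ⟨-, hq2, hq3, hq4⟩ := hkq f₀ hf₀
  rw [hKf₀] at hq2 hq3 hq4
  have hq1 : ∀ l, ((2 * V + A : ℕ) : ℤ) ≤ kJ (s l).d.f S₀ J := fun l => (hkq _ (hFl l)).1
  -- the sizes
  have hm : ∀ l, ∃ m : ℕ, kW (s l) + kJ (s l).d.f S₀ J = 2 * (m : ℤ) := by
    intro l
    have h1 := HY.par l _ hcl
    rw [hkd] at h1
    have h2 := hAl l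
    have h3 := hq1 l
    refine ⟨((kW (s l) + kJ (s l).d.f S₀ J) / 2).toNat, ?_⟩
    push_cast at h3
    omega
  choose m hm using hm
  have hq2n : 3 * K + (3 * A + 3 * V + q₀) ≤
      (J.filter fun e => ty false e.2 = 0 ∧ ty true e.2 = 0).card := by exact_mod_cast hq2
  have hmm : ∀ l, m l ≤ (A + K) / 2 := by
    intro l
    have h1 := hm l
    have h2 := hAl l
    have h3 := hKf _ (hFl l)
    omega
  have hVm : ∀ l, V ≤ m l := by
    intro l
    have h1 := hm l
    have h2 := hAl l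
    have h3 := hq1 l
    push_cast at h3
    omega
  have c1 : ∀ (f : Bool) (a : ℕ), (univ.filter fun e : J => ty f e.1.2 = a).card =
      (J.filter fun e => ty f e.2 = a).card := fun f a => card_subt J fun e => ty f e.2 = a
  have hkJ : ∀ f, kd f S₀ + ((J.filter fun e => ty f e.2 = 3).card : ℤ) -
      ((J.filter fun e => ty f e.2 = 1).card : ℤ) = kJ f S₀ J := fun f => rfl
  have hkdS : ∀ f, -(S₀.card : ℤ) ≤ kd f S₀ := by
    intro f
    unfold kd
    have h1 : (S₀.filter fun p => ty f p = 1).card ≤ S₀.card := card_filter_le _ _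
    omega
  have hinj : Function.Injective (fun i : J => i.1.1) := by
    intro a b hab
    exact Subtype.ext (hk.inj (Finset.mem_coe.2 a.2) (Finset.mem_coe.2 b.2) hab)
  let lo : LinearOrder J := LinearOrder.lift' (fun i : J => i.1.1) hinj
  have hWz : ∀ q, z < q → ∀ l, some q ∉ (s l).W := by
    intro q hq l h
    have h1 := Nat.le_of_dvd (by omega) (HY.Wu l q h)
    omega
  have hndu : ∀ v ∈ S₀, ¬ v ∣ u := by
    intro v hv
    refine HY.cp.nd (cl_prime (hk.cl v hv)) hcl.2 ?_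
    exact dvd_prod_of_mem _ (mem_union_left _ hv)
  have hdis : ∀ l, ∀ v ∈ S₀, some v ∉ (s l).W := by
    intro l v hv h
    exact hndu v hv (HY.Wu l v h)
  have hS₀ : ∀ l, ∀ v ∈ S₀, PrF (s l).d.f v := by
    intro l v hv
    have h1 := hk.cl v hv
    have h2 := hndu v hv
    refine ⟨h1.1, h1.2.1, ?_⟩
    split_ifs
    · rintro rfl
      exact h2 ((by norm_num : 3 ∣ 84).trans HY.dv)
    · exact h1.2.2
  have hSW : ∀ l, (SW (s l) S₀).card = S₀.card + (s l).W.card := by
    intro l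
    unfold SW
    rw [card_union_of_disjoint (SW_disjX (hdis l)),
      card_image_of_injective _ (Option.some_injective _)]
  have hSWs : ∑ l, (SW (s l) S₀).card = t * S₀.card + w := by
    rw [sum_congr rfl fun l _ => hSW l, sum_add_distrib, sum_const, card_univ, Fintype.card_fin,
      smul_eq_mul, hw]
  have hSWs2 : ∑ l, (2 * (SW (s l) S₀).card + 1) = 2 * (t * S₀.card + w) + t := by
    rw [sum_add_distrib, ← mul_sum, hSWs, sum_const, card_univ, Fintype.card_fin, smul_eq_mul,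
      mul_one]
  have hJk : J.card ≤ k := by have := hk.card; omega
  have hSk : S₀.card ≤ k := by have := hk.card; omega
  have hbox := box_decX hBX (s := s) lo (S₀ := S₀) (τ := fun f (e : J) => ty f e.1.2)
    (C := fun i : J => CC u z H i) x fr (fun r => univ.filter fun i : J => i.1.2 = cl r)
    (univ.filter fun i : J => i.1.2 = cs)
    (fun i => XX H i.1.1) κ m ((A + K) / 2) V
    (q₀ + (2 * t) * K + (2 * t) * S₀.card) (K + S₀.card)
    ((2 * (t * S₀.card + w) + t) * J.card + J.card * J.card) β hmm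
    (by omega) hVm HY.t4 HY.recA hκ
    (fun i => by
      refine (Finset.card_filter_le _ _).trans ?_
      rw [Nat.card_Icc]
      omega)
    (hb_box hB hu4 hH hz1 hκ hκz) HY.W hS₀ hdis
    (fun i p hp => by
      obtain ⟨h3, h4, h5, h6⟩ := CC_facts hu4 hH hp
      refine ⟨fun f => ⟨h3.1, h3.2.1, ?_⟩, fun h => ?_, hWz p h4, CC_tyX hu12 hH hp⟩
      · split_ifs
        · omega
        · exact h3.2.2
      · have := hk.le p h
        omega)
    (fun i l hil => CC_disj hH i l hil)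
    (fun l => by
      rw [c1, c1]
      have h1 := hm l
      have h2 := hkJ (s l).d.f
      linarith)
    (by
      have h0 : (univ.filter fun i : J => ty false i.1.2 = 0 ∧ ty true i.1.2 = 0).card =
          (J.filter fun e => ty false e.2 = 0 ∧ ty true e.2 = 0).card :=
        card_subt J fun e => ty false e.2 = 0 ∧ ty true e.2 = 0
      rw [h0]
      have h1 : 6 * ((A + K) / 2) ≤ 3 * (A + K) := by omega
      clear hq2 hq1 hq3 hq4
      omega)
    (fun r i hi => by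
      have hi2 : i.1.2 = cl r := (mem_filter.1 hi).2
      have key : ∀ q ∈ CC u z H i, Pr q ∧ q % (7 * u) = cl r := by
        intro q hq
        obtain ⟨h1, h2, h3⟩ := (mem_CC hH).1 hq
        refine ⟨h1, ?_⟩
        rw [← hi2]
        exact congrArg Prod.snd h3
      constructor
      · obtain ⟨h2, h3⟩ := key _ (hp₀ i)
        show ty (fr r) i.1.2 = 2
        rw [← CC_tyX hu12 hH (hp₀ i)]
        exact (HY.cls r _ h2.1 h3).1
      · intro q hq
        obtain ⟨h2, h3⟩ := key q hq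
        exact (HY.cls r _ h2.1 h3).2)
    HY.sep
    (fun r => by
      have h1 : (univ.filter fun i : J => i.1.2 = cl r).card =
          (J.filter fun e => e.2 = cl r).card := card_subt J fun e => e.2 = cl r
      rw [h1]
      have h2 := hq3 r
      have h3 : ((q₀ + (2 * t) * K + (2 * t) * S₀.card : ℕ) : ℤ) ≤
          ((J.filter fun e => e.2 = cl r).card : ℤ) := by
        push_cast at h2 ⊢
        linarith [Int.natCast_nonneg A, Int.natCast_nonneg V, Int.natCast_nonneg K, Int.natCast_nonneg S₀.card]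
      exact_mod_cast h3)
    (fun i hi => by
      have hi2 : i.1.2 = cs := (mem_filter.1 hi).2
      obtain ⟨h1, h2, h3⟩ := (mem_CC hH).1 (hp₀ i)
      have h4 : p₀ i % (7 * u) = cs := by
        rw [← hi2]
        exact congrArg Prod.snd h3
      obtain ⟨h5, h6⟩ := HY.cst _ h1.1 h4
      constructor
      · show ty false i.1.2 = 2
        rw [← CC_tyX hu12 hH (hp₀ i)]
        exact h5
      · show ty true i.1.2 = 0
        rw [← CC_tyX hu12 hH (hp₀ i)]
        exact h6)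
    (by
      have h1 : (univ.filter fun i : J => i.1.2 = cs).card =
          (J.filter fun e => e.2 = cs).card := card_subt J fun e => e.2 = cs
      rw [h1]
      have h3 : ((q₀ + (2 * t) * K + (2 * t) * S₀.card + (K + S₀.card) : ℕ) : ℤ) ≤
          ((J.filter fun e => e.2 = cs).card : ℤ) := by
        push_cast at hq4 ⊢
        linarith [Int.natCast_nonneg A, Int.natCast_nonneg V]
      exact_mod_cast h3)
    (fun l => by
      rw [c1, c1]
      have h1 := hkJ (s l).d.f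
      have h2 := hKf _ (hFl l)
      have h3 := hkdS (s l).d.f
      omega)
    (by
      rw [hSWs, hq₀]
      have h1 : t * (K + S₀.card) = t * K + t * S₀.card := by ring
      rw [h1]
      nlinarith)
    (by
      rw [hSWs2, Fintype.card_coe])
  have e1 : (Fintype.piFinset fun i : J => CC u z H i).filter (fun p =>
      NdJ s (sm z (S₀ ∪ univ.image p)) (la z (S₀ ∪ univ.image p)) ∧
        PatS s β (S₀ ∪ univ.image p)) =
      (Fintype.piFinset fun i : J => CC u z H i).filter fun p => NdJ s S₀ (univ.image p) ∧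
        PatS s β (S₀ ∪ univ.image p) := by
    refine Finset.filter_congr fun p hp => ?_
    rw [Fintype.mem_piFinset] at hp
    rw [sm_fill hH hk.le hp, la_fill hH hk.le hp]
  have e2 : (Fintype.piFinset fun i : J => CC u z H i).filter (fun p =>
      NdJ s (sm z (S₀ ∪ univ.image p)) (la z (S₀ ∪ univ.image p))) =
      (Fintype.piFinset fun i : J => CC u z H i).filter fun p => NdJ s S₀ (univ.image p) := by
    refine Finset.filter_congr fun p hp => ?_
    rw [Fintype.mem_piFinset] at hp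
    rw [sm_fill hH hk.le hp, la_fill hH hk.le hp]
  rw [e1, e2]
  refine hbox.trans (add_le_add ?_ ?_)
  · have h4 : (((Fintype.piFinset fun i : J => CC u z H i).filter fun p =>
        NdJ s S₀ (univ.image p)).card : ℝ) ≤
        ((Fintype.piFinset fun i : J => CC u z H i).card : ℝ) := by
      exact_mod_cast Finset.card_filter_le _ _
    refine mul_le_mul (mul_le_mul_of_nonneg_left ?_ (by positivity)) h4 (Nat.cast_nonneg _)
      (by positivity)
    exact pow_le_pow_of_le_one (by norm_num) (by norm_num) (by omega)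
  · have hprod : ∏ j : J, (XX H j.1.1 : ℝ) ≤ X / ((∏ p ∈ S₀, p : ℕ) : ℝ) := by
      have h5 : ∏ j : J, (XX H j.1.1 : ℝ) = ((∏ k ∈ J, XX H k.1 : ℕ) : ℝ) := by
        rw [← Finset.prod_coe_sort J (fun k => XX H k.1)]
        push_cast
        rfl
      rw [h5, le_div_iff₀ hP0, mul_comm]
      exact_mod_cast hk.prod
    have hexp : (2 * (t * S₀.card + w) + t) * J.card + J.card * J.card + 1 ≤
        (3 * t + 2 * w + 2) * (k ^ 2 + 1) := by
      have h6 : S₀.card * J.card ≤ k * k := Nat.mul_le_mul hSk hJk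
      have h7 : J.card * J.card ≤ k * k := Nat.mul_le_mul hJk hJk
      have h8 : k ≤ k * k := Nat.le_mul_self k
      have h9 : J.card ≤ k * k := hJk.trans h8
      have h10 : t * (S₀.card * J.card) ≤ t * (k * k) := Nat.mul_le_mul_left _ h6
      have h11 : (2 * w + t) * J.card ≤ (2 * w + t) * (k * k) := Nat.mul_le_mul_left _ h9
      nlinarith
    have h5 : 2 * (2 : ℝ) ^ ((2 * (t * S₀.card + w) + t) * J.card + J.card * J.card) ≤
        3 ^ ((3 * t + 2 * w + 2) * (k ^ 2 + 1)) := by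
      calc 2 * (2 : ℝ) ^ ((2 * (t * S₀.card + w) + t) * J.card + J.card * J.card) =
            2 ^ ((2 * (t * S₀.card + w) + t) * J.card + J.card * J.card + 1) := by
            rw [pow_succ]; ring
        _ ≤ 3 ^ ((2 * (t * S₀.card + w) + t) * J.card + J.card * J.card + 1) :=
            pow_le_pow_left₀ (by norm_num) (by norm_num) _
        _ ≤ _ := pow_le_pow_right₀ (by norm_num) hexp
    have h6 : 0 ≤ ∏ j : J, (XX H j.1.1 : ℝ) := Finset.prod_nonneg fun j _ => Nat.cast_nonneg _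
    calc 2 * (2 : ℝ) ^ ((2 * (t * S₀.card + w) + t) * J.card + J.card * J.card) *
        (κ * ∏ j : J, (XX H j.1.1 : ℝ)) ≤
        3 ^ ((3 * t + 2 * w + 2) * (k ^ 2 + 1)) * (κ * (X / ((∏ p ∈ S₀, p : ℕ) : ℝ))) := by
          gcongr
      _ = _ := by ring

end Pool.Agent.L0h86.XF
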