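import Pool.Agent.L0h86.XF.FIN2
import Pool.Agent.L0h86.XF.KYX
import Pool.Agent.L0h74.BXX.D
import Pool.Agent.L0h38.XF.CEL7F
import Pool.Agent.L0h23.XF.CelT
import Pool.Agent.L0h2.P.KEYG

/-!
# Project XF (helper86): assembly
-/

set_option autoImplicit false

open scoped Classical

namespace Pool.Agent.L0h86.XF

open Filter
open scoped Topology
open Pool.Agent.L0h1.CM (TT2 S7)
open Pool.Agent.L0h4.T6 (J)

theorem t_KYX' : S_KYX := t_KYX Pool.Agent.L0h74.BXX.t_BXX Pool.Agent.L0h2.P.KEYG.t_KEYG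

theorem t_DJX : S_DJX := dj t_KYX'

theorem t_CEL : ∀ f, S_CEL f
  | false => Pool.Agent.L0h38.XF.t_CEL7
  | true => Pool.Agent.L0h23.XF.t_CEL3

/-- **The joint law of the twists of `X_0(49)` and of `X_0(36)`.** -/
theorem law_fin {s t : ℕ} {d : Fin s → ℤ} {d' : Fin t → ℤ}
    (hd : Diff 7 d) (hd' : Diff 3 d') {m : ℕ} (hm : 0 < m) {r : ℤ} {σ : Set ℤ}
    (hne : ∃ e, Fam d d' m r σ e) (b : Fin s → Bool) (b' : Fin t → Bool) :
    Tendsto (prop (Fam d d' m r σ) fun e => (∀ i, (TT2 (S7 ((e * d i : ℤ) : ℚ)) ↔ b i = true)) ∧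
      ∀ j, (TT2 (J (((e * d' j : ℤ) : ℚ) ^ 3)) ↔ b' j = true)) atTop (𝓝 (L1 b * L1 b')) :=
  law_prop t_DJX t_CEL hd hd' hm hne b b'

end Pool.Agent.L0h86.XF
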