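import Pool.Agent.L0h86.XF.FIN

/-!
# Project XF (helper86): explicit form of the families
-/

set_option autoImplicit false
set_option linter.unusedSectionVars false
set_option linter.unusedVariables false
set_option maxHeartbeats 1000000

open scoped Classical

namespace Pool.Agent.L0h86.XF

open Finset Filter
open scoped Topology
open Pool.Agent.Y703.CQ (c2)
open Pool.Agent.L0h74.AP (cnt)
open Pool.Agent.L0h1.CM (TT2 S7)
open Pool.Agent.L0h4.T6 (J)

/-- `n` is `D t²` or `-7 D t²`, `D` positive, square-free, prime to `7` -/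
def PlusA (n : ℤ) : Prop := ∃ D t : ℤ, 0 < D ∧ Squarefree D ∧ ¬ 7 ∣ D ∧ t ≠ 0 ∧
  (n = D * t ^ 2 ∨ n = -7 * D * t ^ 2)

/-- `n` is `D t²` or `-3 D t²`, `D` square-free, prime to `3`, `|D| ≡ 1` modulo `4` or `D` even and
negative -/
def PlusB (n : ℤ) : Prop := ∃ D t : ℤ, Squarefree D ∧ ¬ 3 ∣ D ∧ (|D| % 4 = 1 ∨ D < 0 ∧ 2 ∣ D) ∧
  t ≠ 0 ∧ (n = D * t ^ 2 ∨ n = -3 * D * t ^ 2)

theorem natAbs_cast {n : ℤ} {k : ℕ} (h : n.natAbs = k) (h0 : 0 < n) : n = k := by omega

theorem natAbs_neg {n : ℤ} {k : ℕ} (h : n.natAbs = k) (h0 : n < 0) : n = -(k : ℤ) := by omega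

theorem pad_sq {p : ℕ} [hp : Fact p.Prime] {D t : ℤ} (hD : ¬ (p : ℤ) ∣ D) (hD0 : D ≠ 0)
    (ht : t ≠ 0) : padicValInt p (D * t ^ 2) = 2 * padicValInt p t := by
  rw [padicValInt.mul hD0 (pow_ne_zero 2 ht), padicValInt.eq_zero_of_not_dvd hD, zero_add, sq,
    padicValInt.mul ht ht]
  ring

theorem pad_psq {p : ℕ} [hp : Fact p.Prime] {D t : ℤ} (hD : ¬ (p : ℤ) ∣ D) (hD0 : D ≠ 0)
    (ht : t ≠ 0) : padicValInt p (-p * D * t ^ 2) = 2 * padicValInt p t + 1 := by
  have hp0 : (-(p : ℤ)) ≠ 0 := by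
    have := hp.out.ne_zero
    simpa using this
  rw [mul_assoc, padicValInt.mul hp0 (mul_ne_zero hD0 (pow_ne_zero 2 ht)), pad_sq hD hD0 ht]
  have : padicValInt p (-(p : ℤ)) = 1 := by
    rw [padicValInt, Int.natAbs_neg, Int.natAbs_natCast, padicValNat_self]
  rw [this]
  ring

theorem plusA_iff {n : ℤ} : PlusA n ↔ RP false n := by
  have h7p : Fact (Nat.Prime 7) := ⟨by norm_num⟩
  show PlusA n ↔ Pool.Agent.L0h74.AP.RootPlus n
  constructor
  · rintro ⟨D, t, h0, h1, h2, h3, h4⟩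
    have ht2 : 0 < t ^ 2 := by positivity
    rcases h4 with rfl | rfl
    · left
      refine ⟨by positivity, ?_⟩
      rw [pad_sq (by exact_mod_cast h2) h0.ne' h3]
      exact even_two_mul _
    · right
      refine ⟨by nlinarith, ?_⟩
      have := pad_psq (p := 7) (D := D) (t := t) (by exact_mod_cast h2) h0.ne' h3
      rw [show ((-7 : ℤ) * D * t ^ 2) = -((7 : ℕ) : ℤ) * D * t ^ 2 by norm_num, this]
      exact ⟨_, rfl⟩
  · intro h
    have hn0 : n ≠ 0 := by
      rcases h with h | h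
      · exact h.1.ne'
      · exact h.1.ne
    obtain ⟨t, ht, hd⟩ := Pool.Agent.L0h74.AP.Dn_decomp hn0
    have hsq := Pool.Agent.L0h74.AP.Dn_sq n
    have h7 := Pool.Agent.L0h74.AP.Dn_seven n
    refine ⟨Pool.Agent.L0h74.AP.Dn n, t, by exact_mod_cast Nat.pos_of_ne_zero hsq.ne_zero,
      Int.squarefree_natCast.2 hsq, by exact_mod_cast h7, by exact_mod_cast ht, ?_⟩
    rcases h with ⟨h1, h2⟩ | ⟨h1, h2⟩
    · rcases hd with ⟨-, hd⟩ | ⟨hd, -⟩
      · left
        have := natAbs_cast hd h1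
        push_cast at this
        linear_combination this
      · exact absurd h2 (Nat.not_even_iff_odd.2 hd)
    · rcases hd with ⟨hd, -⟩ | ⟨-, hd⟩
      · exact absurd hd (Nat.not_even_iff_odd.2 h2)
      · right
        have := natAbs_neg hd h1
        push_cast at this
        linear_combination this

theorem natAbs_sqf {D : ℤ} (h : Squarefree D) : Squarefree D.natAbs := Int.squarefree_natAbs.2 h

theorem plusB_iff {n : ℤ} : PlusB n ↔ RP true n := by
  have h3p : Fact (Nat.Prime 3) := ⟨by norm_num⟩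
  show PlusB n ↔ Pool.Agent.L0h74.E3.RootPlus n
  constructor
  · rintro ⟨D, t, h1, h2, h5, h3, h4⟩
    have ht2 : 0 < t ^ 2 := by positivity
    have hD0 : D ≠ 0 := h1.ne_zero
    have hDn : Pool.Agent.L0h74.E3.Dn n = D.natAbs := by
      have hsf := natAbs_sqf h1
      have h3' : ¬ 3 ∣ D.natAbs := fun h => h2 (Int.natCast_dvd.2 h)
      have key : ∀ m : ℤ, (m = (D.natAbs : ℤ) * t ^ 2 ∨ m = -3 * (D.natAbs : ℤ) * t ^ 2) →
          Pool.Agent.L0h74.E3.Dn m = D.natAbs := fun m hm =>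
        Pool.Agent.L0h74.E3.Dn_unique hsf h3' h3 hm
      have hneg : ∀ m : ℤ, Pool.Agent.L0h74.E3.Dn (-m) = Pool.Agent.L0h74.E3.Dn m := by
        intro m
        unfold Pool.Agent.L0h74.E3.Dn Pool.Agent.L0h74.E3.Ds
        rw [Int.natAbs_neg]
      rcases le_or_gt 0 D with hD | hD
      · have e : (D.natAbs : ℤ) = D := Int.natAbs_of_nonneg hD
        rw [e] at key
        exact key n h4
      · have e : (D.natAbs : ℤ) = -D := by omega
        rw [← hneg n]
        refine key (-n) ?_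
        rw [e]
        rcases h4 with rfl | rfl
        · left
          ring
        · right
          ring
    refine ⟨?_, ?_⟩
    · rcases h4 with rfl | rfl
      · exact mul_ne_zero hD0 ht2.ne'
      · exact mul_ne_zero (mul_ne_zero (by norm_num) hD0) ht2.ne'
    · rw [hDn]
      rcases h5 with h5 | ⟨h5, h6⟩
      · left
        have : |D| = (D.natAbs : ℤ) := (Int.natCast_natAbs D).symm
        rw [this] at h5
        omega
      · right
        refine ⟨by omega, ?_⟩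
        rcases h4 with rfl | rfl
        · left
          refine ⟨by nlinarith, ?_⟩
          rw [pad_sq (by exact_mod_cast h2) hD0 h3]
          exact even_two_mul _
        · right
          refine ⟨by nlinarith, ?_⟩
          have := pad_psq (p := 3) (D := D) (t := t) (by exact_mod_cast h2) hD0 h3
          rw [show ((-3 : ℤ) * D * t ^ 2) = -((3 : ℕ) : ℤ) * D * t ^ 2 by norm_num, this]
          exact ⟨_, rfl⟩
  · rintro ⟨hn0, h⟩
    obtain ⟨t, ht, hd⟩ := Pool.Agent.L0h74.E3.Dn_decomp hn0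
    have hsq := Pool.Agent.L0h74.E3.Dn_sq n
    have h7 := Pool.Agent.L0h74.E3.Dn_three n
    set M := Pool.Agent.L0h74.E3.Dn n with hM
    have hsqZ : Squarefree (M : ℤ) := Int.squarefree_natCast.2 hsq
    have hsqZ' : Squarefree (-(M : ℤ)) := by
      rw [← Int.squarefree_natAbs, Int.natAbs_neg, Int.natAbs_natCast]
      exact hsq
    have h3Z : ¬ (3 : ℤ) ∣ M := by exact_mod_cast h7
    have h3Z' : ¬ (3 : ℤ) ∣ -M := fun h => h3Z ((dvd_neg).1 h)
    have htZ : (t : ℤ) ≠ 0 := by exact_mod_cast ht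
    have hab : |(-(M : ℤ))| = M := by rw [abs_neg, Nat.abs_cast]
    rcases h with h | ⟨h2, h⟩
    · have h4 : |(M : ℤ)| % 4 = 1 := by
        rw [Nat.abs_cast]
        exact_mod_cast h
      have h4' : |(-(M : ℤ))| % 4 = 1 := by
        rw [hab]
        exact_mod_cast h
      rcases lt_or_gt_of_ne hn0 with hn | hn
      · rcases hd with ⟨-, hd⟩ | ⟨-, hd⟩
        · refine ⟨-M, t, hsqZ', h3Z', Or.inl h4', htZ, Or.inl ?_⟩
          have := natAbs_neg hd hn
          push_cast at this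
          linear_combination this
        · refine ⟨M, t, hsqZ, h3Z, Or.inl h4, htZ, Or.inr ?_⟩
          have := natAbs_neg hd hn
          push_cast at this
          linear_combination this
      · rcases hd with ⟨-, hd⟩ | ⟨-, hd⟩
        · refine ⟨M, t, hsqZ, h3Z, Or.inl h4, htZ, Or.inl ?_⟩
          have := natAbs_cast hd hn
          push_cast at this
          linear_combination this
        · refine ⟨-M, t, hsqZ', h3Z', Or.inl h4', htZ, Or.inr ?_⟩
          have := natAbs_cast hd hn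
          push_cast at this
          linear_combination this
    · have hM0 : 0 < M := Nat.pos_of_ne_zero hsq.ne_zero
      have h5 : -(M : ℤ) < 0 ∧ (2 : ℤ) ∣ -M := ⟨by omega, by omega⟩
      rcases h with ⟨hn, he⟩ | ⟨hn, he⟩
      · rcases hd with ⟨-, hd⟩ | ⟨hd, -⟩
        · refine ⟨-M, t, hsqZ', h3Z', Or.inr h5, htZ, Or.inl ?_⟩
          have := natAbs_neg hd hn
          push_cast at this
          linear_combination this
        · exact absurd he (Nat.not_even_iff_odd.2 hd)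
      · rcases hd with ⟨hd, -⟩ | ⟨-, hd⟩
        · exact absurd hd (Nat.not_even_iff_odd.2 he)
        · refine ⟨-M, t, hsqZ', h3Z', Or.inr h5, htZ, Or.inr ?_⟩
          have := natAbs_cast hd hn
          push_cast at this
          linear_combination this

/-- no quotient of two of the `d_i` is `± 1` or `± p` times a square -/
def Diff (p : ℤ) {k : ℕ} (d : Fin k → ℤ) : Prop := ∀ i j, i ≠ j → ∀ m : ℤ,
  d i * d j ≠ m ^ 2 ∧ d i * d j ≠ -m ^ 2 ∧ d i * d j ≠ p * m ^ 2 ∧ d i * d j ≠ -p * m ^ 2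

theorem DnF_decomp (f : Bool) {n : ℤ} (hn : n ≠ 0) : ∃ t : ℕ, t ≠ 0 ∧
    (n.natAbs = DnF f n * t ^ 2 ∨ n.natAbs = q f * DnF f n * t ^ 2) := by
  cases f
  · obtain ⟨t, ht, h⟩ := Pool.Agent.L0h74.AP.Dn_decomp hn
    refine ⟨t, ht, ?_⟩
    rcases h with h | h
    · exact Or.inl h.2
    · exact Or.inr h.2
  · obtain ⟨t, ht, h⟩ := Pool.Agent.L0h74.E3.Dn_decomp hn
    refine ⟨t, ht, ?_⟩
    rcases h with h | h
    · exact Or.inl h.2
    · exact Or.inr h.2

theorem diff_inj (f : Bool) {k : ℕ} {d : Fin k → ℤ} (h : Diff (q f) d) (h0 : ∀ i, d i ≠ 0) :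
    Function.Injective fun i => DnF f (d i) := by
  intro i j hij
  by_contra hne
  have hij' : DnF f (d i) = DnF f (d j) := hij
  obtain ⟨t, ht, h1⟩ := DnF_decomp f (h0 i)
  obtain ⟨t', ht', h1'⟩ := DnF_decomp f (h0 j)
  rw [← hij'] at h1'
  set M := DnF f (d i)
  have key : ∃ m : ℕ, (d i * d j).natAbs = m ^ 2 ∨ (d i * d j).natAbs = q f * m ^ 2 := by
    rw [Int.natAbs_mul]
    rcases h1 with h1 | h1 <;> rcases h1' with h1' | h1' <;> rw [h1, h1']
    · exact ⟨M * t * t', Or.inl (by ring)⟩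
    · exact ⟨M * t * t', Or.inr (by ring)⟩
    · exact ⟨M * t * t', Or.inr (by ring)⟩
    · exact ⟨q f * M * t * t', Or.inl (by ring)⟩
  obtain ⟨m, hm⟩ := key
  obtain ⟨k1, k2, k3, k4⟩ := h i j hne m
  have hc : (d i * d j = ((d i * d j).natAbs : ℤ)) ∨ (d i * d j = -((d i * d j).natAbs : ℤ)) :=
    Int.natAbs_eq _
  rcases hm with hm | hm <;> rcases hc with hc | hc <;> rw [hm] at hc <;> push_cast at hc
  · exact k1 hc
  · exact k2 hc
  · exact k3 hc
  · exact k4 (by rw [hc]; ring)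

/-- the family -/
def Fam {s t : ℕ} (d : Fin s → ℤ) (d' : Fin t → ℤ) (m : ℕ) (r : ℤ) (σ : Set ℤ) (e : ℤ) : Prop :=
  Squarefree e ∧ (∀ i, PlusA (e * d i)) ∧ (∀ j, PlusB (e * d' j)) ∧ e ≡ r [ZMOD (m : ℤ)] ∧
    e.sign ∈ σ

/-- the proportion -/
noncomputable def prop (F Q : ℤ → Prop) (X : ℕ) : ℝ :=
  (((Finset.Icc (-(X : ℤ)) X).filter fun e => F e ∧ Q e).card : ℝ) /
    (((Finset.Icc (-(X : ℤ)) X).filter fun e => F e).card : ℝ)

theorem fam_iff {s t : ℕ} (d : Fin s → ℤ) (d' : Fin t → ℤ) (m : ℕ) (r : ℤ) (σ : Set ℤ) (e : ℤ) :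
    Fam d d' m r σ e ↔ Squarefree e ∧ F2 d d' m r σ e := by
  unfold Fam F2
  simp only [plusA_iff, plusB_iff]
  tauto

theorem fltZ (S : Finset ℤ) (P Q : ℤ → Prop) (i : DecidablePred P) (j : DecidablePred Q)
    (h : ∀ D ∈ S, (P D ↔ Q D)) : (S.filter P).card = (S.filter Q).card :=
  congrArg Finset.card (Finset.filter_congr h)

theorem prop_eq {s t : ℕ} (d : Fin s → ℤ) (d' : Fin t → ℤ) (m : ℕ) (r : ℤ) (σ : Set ℤ)
    (Q : ℤ → Prop) (X : ℕ) : prop (Fam d d' m r σ) Q X =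
      ((cnt Int.natAbs (fun e => F2 d d' m r σ e ∧ Q e) X : ℕ) : ℝ) /
      ((cnt Int.natAbs (F2 d d' m r σ) X : ℕ) : ℝ) := by
  unfold prop cnt
  refine congrArg₂ (fun a b : ℕ => (a : ℝ) / (b : ℝ)) ?_ ?_
  · refine fltZ _ _ _ _ _ fun e he => ?_
    rw [mem_Icc] at he
    rw [fam_iff]
    have : e.natAbs ≤ X := by omega
    tauto
  · refine fltZ _ _ _ _ _ fun e he => ?_
    rw [mem_Icc] at he
    rw [fam_iff]
    have : e.natAbs ≤ X := by omega
    tauto

/-- **the joint law** -/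
theorem law_prop (hDJ : S_DJX) (hC : ∀ f, S_CEL f) {s t : ℕ} {d : Fin s → ℤ} {d' : Fin t → ℤ}
    (hd : Diff 7 d) (hd' : Diff 3 d') {m : ℕ} (hm : 0 < m) {r : ℤ} {σ : Set ℤ}
    (hne : ∃ e, Fam d d' m r σ e) (b : Fin s → Bool) (b' : Fin t → Bool) :
    Tendsto (prop (Fam d d' m r σ) fun e => (∀ i, (TT2 (S7 ((e * d i : ℤ) : ℚ)) ↔ b i = true)) ∧
      ∀ j, (TT2 (J (((e * d' j : ℤ) : ℚ) ^ 3)) ↔ b' j = true)) atTop (𝓝 (L1 b * L1 b')) := by
  obtain ⟨e₀, he₀⟩ := hne
  have h0 := (fam_iff d d' m r σ e₀).1 he₀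
  have hd0 : ∀ i, d i ≠ 0 := by
    intro i hi
    obtain ⟨D, t, h1, h2, h3, h4, h5⟩ := he₀.2.1 i
    rw [hi, mul_zero] at h5
    have ht2 : 0 < t ^ 2 := by positivity
    rcases h5 with h5 | h5 <;> nlinarith
  have hd0' : ∀ i, d' i ≠ 0 := by
    intro i hi
    have h5 := (plusB_iff.1 (he₀.2.2.1 i)).1
    rw [hi, mul_zero] at h5
    exact h5 rfl
  have h := law2 hDJ hC d d' hd0 hd0' (diff_inj false hd hd0) (diff_inj true hd' hd0') hm r σ h0.1
    h0.2 b b'
  exact h.congr fun X => (prop_eq d d' m r σ _ X).symm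

end Pool.Agent.L0h86.XF
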