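import Pool.Agent.L0h2.P.GP

/-!
# Project XF: general position of the dual kernels for two fields

`g l` is the field of the system `l`; `J1 f` are the large indices which split in the field `f`, `PJ f`
the large columns of the systems of the field `f`.
-/

set_option autoImplicit false
set_option linter.unusedSectionVars false
set_option linter.unusedVariables false
set_option maxHeartbeats 1000000

open scoped Classical

namespace Pool.Agent.L0h86.XF

open Finset
open Pool.Agent.N973.ND hiding z2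
open Pool.Agent.L0h1.KD
open Pool.Agent.L0h2.P
open Pool.Agent.N916.GB (ps)

/-! ### Subspaces -/

section
variable {t : ℕ} {ρ : Type} {x : Fin t → ρ → ZMod 2} {g : Fin t → Bool} {fr : ρ → Bool}

/-- a space of vectors of one field with sum zero which is stable under the multiplications is zero -/
theorem stable_botF {f : Bool}
    (hsep : ∀ l l' : Fin t, l ≠ l' → g l = g l' → ∃ r, fr r = g l ∧ x l r ≠ x l' r)
    {R : Submodule (ZMod 2) (Fin t → ZMod 2)} (hR : R ≠ ⊥) (hH : ∀ y ∈ R, ∑ l, y l = 0)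
    (hf : ∀ y ∈ R, ∀ l, g l ≠ f → y l = 0) :
    ∃ r, fr r = f ∧ ∃ y ∈ R, (fun l => x l r * y l) ∉ R := by
  by_contra hc
  push Not at hc
  obtain ⟨y₀, hy₀, hne₀⟩ := Submodule.exists_mem_ne_zero_of_ne_bot hR
  obtain ⟨y, hy, hmin⟩ := exists_min_image (univ.filter fun y : Fin t → ZMod 2 => y ∈ R ∧ y ≠ 0)
    (fun y => (univ.filter fun l => y l ≠ 0).card) ⟨y₀, mem_filter.2 ⟨mem_univ _, hy₀, hne₀⟩⟩
  rw [mem_filter] at hy
  obtain ⟨-, hyR, hy0⟩ := hy
  obtain ⟨l, hl⟩ : ∃ l, y l ≠ 0 := by
    by_contra h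
    push Not at h
    exact hy0 (funext h)
  obtain ⟨l', hl', hne⟩ : ∃ l', y l' ≠ 0 ∧ l' ≠ l := by
    by_contra h
    push Not at h
    have h1 : ∑ k, y k = y l := by
      refine sum_eq_single l (fun k _ hk => ?_) fun h => absurd (mem_univ _) h
      by_contra h2
      exact hk (h k h2)
    rw [hH y hyR] at h1
    exact hl h1.symm
  have gl : g l = f := by
    by_contra h
    exact hl (hf y hyR l h)
  have gl' : g l' = f := by
    by_contra h
    exact hl' (hf y hyR l' h)
  obtain ⟨r, hrf, hr⟩ := hsep l' l hne (gl'.trans gl.symm)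
  have h1 := hc r (hrf.trans gl') y hyR
  set y' : Fin t → ZMod 2 := fun k => x k r * y k with hy'
  have hcase : (x l' r = 1 ∧ x l r = 0) ∨ (x l' r = 0 ∧ x l r = 1) := by
    rcases z2 (x l' r) with h2 | h2 <;> rcases z2 (x l r) with h3 | h3
    · exact absurd (h2.trans h3.symm) hr
    · exact Or.inr ⟨h2, h3⟩
    · exact Or.inl ⟨h2, h3⟩
    · exact absurd (h2.trans h3.symm) hr
  have hsub : (univ.filter fun k => y' k ≠ 0) ⊂ univ.filter fun k => y k ≠ 0 := by
    rw [Finset.ssubset_iff_of_subset]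
    · rcases hcase with h2 | h2
      · refine ⟨l, mem_filter.2 ⟨mem_univ _, hl⟩, fun h => ?_⟩
        rw [mem_filter] at h
        apply h.2
        show x l r * y l = 0
        rw [h2.2, zero_mul]
      · refine ⟨l', mem_filter.2 ⟨mem_univ _, hl'⟩, fun h => ?_⟩
        rw [mem_filter] at h
        apply h.2
        show x l' r * y l' = 0
        rw [h2.1, zero_mul]
    · intro k hk
      rw [mem_filter] at hk ⊢
      refine ⟨mem_univ _, fun h => hk.2 ?_⟩
      show x k r * y k = 0
      rw [h, mul_zero]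
  have hy'0 : y' ≠ 0 := by
    intro h
    rcases hcase with h2 | h2
    · have h3 : y' l' = 0 := by rw [h]; rfl
      have h4 : x l' r * y l' = 0 := h3
      rw [h2.1, one_mul] at h4
      exact hl' h4
    · have h3 : y' l = 0 := by rw [h]; rfl
      have h4 : x l r * y l = 0 := h3
      rw [h2.2, one_mul] at h4
      exact hl h4
  have h2 := hmin y' (mem_filter.2 ⟨mem_univ _, h1, hy'0⟩)
  exact absurd (card_lt_card hsub) (not_lt.2 h2)

/-- half of the vectors at most satisfy the condition -/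
theorem halfA {R A : Submodule (ZMod 2) (Fin t → ZMod 2)} {ξ y : Fin t → ZMod 2} (hy : y ∈ A)
    (hn : (fun l => ξ l * y l) ∉ R) (a : Fin t → ZMod 2) :
    2 * (univ.filter fun v : Fin t → ZMod 2 => v ∈ A ∧ (fun l => a l + ξ l * v l) ∈ R).card ≤
      (univ.filter fun v : Fin t → ZMod 2 => v ∈ A).card := by
  set F := univ.filter fun v : Fin t → ZMod 2 => v ∈ A ∧ (fun l => a l + ξ l * v l) ∈ R with hF
  set G := F.image fun v => v + y with hG
  have hGc : G.card = F.card := card_image_of_injective _ fun u v h => add_right_cancel h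
  have hdis : Disjoint F G := by
    rw [disjoint_left]
    intro v hv hv'
    rw [hG, mem_image] at hv'
    obtain ⟨u, hu, rfl⟩ := hv'
    rw [hF, mem_filter] at hu hv
    apply hn
    have h1 := R.sub_mem hv.2.2 hu.2.2
    have h2 : (fun l => a l + ξ l * (u + y) l) - (fun l => a l + ξ l * u l) =
        fun l => ξ l * y l := by
      funext l
      simp only [Pi.sub_apply, Pi.add_apply]
      ring
    rwa [h2] at h1
  have hsub : F ∪ G ⊆ univ.filter fun v : Fin t → ZMod 2 => v ∈ A := by
    intro v hv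
    rw [mem_union] at hv
    rw [mem_filter]
    refine ⟨mem_univ _, ?_⟩
    rcases hv with hv | hv
    · rw [hF, mem_filter] at hv
      exact hv.2.1
    · rw [hG, mem_image] at hv
      obtain ⟨u, hu, rfl⟩ := hv
      rw [hF, mem_filter] at hu
      exact A.add_mem hu.2.1 hy
  have h1 := card_le_card hsub
  rw [card_union_of_disjoint hdis, hGc] at h1
  omega

/-- the vectors which vanish where `T` does not hold -/
def Vn {t : ℕ} (T : Fin t → Prop) : Submodule (ZMod 2) (Fin t → ZMod 2) where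
  carrier := {y | ∀ l, ¬ T l → y l = 0}
  zero_mem' := fun _ _ => rfl
  add_mem' := fun {y z} hy hz l hl => by
    show y l + z l = 0
    rw [hy l hl, hz l hl, add_zero]
  smul_mem' := fun c y hy l hl => by
    show c * y l = 0
    rw [hy l hl, mul_zero]

theorem mem_Vn {T : Fin t → Prop} {y : Fin t → ZMod 2} : y ∈ Vn T ↔ ∀ l, ¬ T l → y l = 0 := Iff.rfl

theorem rk_pow (R : Submodule (ZMod 2) (Fin t → ZMod 2)) :
    rk R = 2 ^ Module.finrank (ZMod 2) R := by
  have h1 := Module.card_eq_pow_finrank (K := ZMod 2) (V := R)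
  rw [ZMod.card] at h1
  rw [← h1]
  unfold rk
  exact (Fintype.card_subtype _).symm

/-- the exponents of a subspace -/
structure Exq (g : Fin t → Bool) (R : Submodule (ZMod 2) (Fin t → ZMod 2)) (r a b : ℕ) : Prop where
  er : rk R = 2 ^ r
  ea : rk (R ⊓ Vn fun l => g l = false) = 2 ^ a
  eb : rk (R ⊓ Vn fun l => g l = true) = 2 ^ b
  le : a + b ≤ r
  rt : r ≤ t
  eq : a + b = r → ∀ y ∈ R, ∀ f, (fun l => if g l = f then y l else 0) ∈ R
  na : a ≠ 0 → ∃ l, g l = false
  nb : b ≠ 0 → ∃ l, g l = true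
  ne : a + b ≠ r → (∃ l, g l = false) ∧ ∃ l, g l = true

theorem exq (g : Fin t → Bool) (R : Submodule (ZMod 2) (Fin t → ZMod 2)) :
    ∃ r a b, Exq g R r a b := by
  obtain ⟨F7, hF7⟩ : ∃ F : Submodule (ZMod 2) (Fin t → ZMod 2), F = Vn fun l => g l = false :=
    ⟨_, rfl⟩
  obtain ⟨F3, hF3⟩ : ∃ F : Submodule (ZMod 2) (Fin t → ZMod 2), F = Vn fun l => g l = true :=
    ⟨_, rfl⟩
  have hbf : ∀ c : Bool, c ≠ false ↔ c = true := by decide
  have hbt : ∀ c : Bool, c ≠ true ↔ c = false := by decide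
  have m7' : ∀ y : Fin t → ZMod 2, y ∈ F7 ↔ ∀ l, g l = true → y l = 0 := by
    intro y
    rw [hF7, mem_Vn]
    exact forall_congr' fun l => imp_congr (hbf (g l)) Iff.rfl
  have m3' : ∀ y : Fin t → ZMod 2, y ∈ F3 ↔ ∀ l, g l = false → y l = 0 := by
    intro y
    rw [hF3, mem_Vn]
    exact forall_congr' fun l => imp_congr (hbt (g l)) Iff.rfl
  have hinf : (R ⊓ F7) ⊓ (R ⊓ F3) = ⊥ := by
    rw [eq_bot_iff]
    intro y hy
    rw [Submodule.mem_inf, Submodule.mem_inf, Submodule.mem_inf] at hy
    obtain ⟨⟨-, h7⟩, -, h3⟩ := hy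
    rw [Submodule.mem_bot]
    funext l
    cases hg : g l with
    | false => exact (m3' y).1 h3 l hg
    | true => exact (m7' y).1 h7 l hg
  have hsum := Submodule.finrank_sup_add_finrank_inf_eq (R ⊓ F7) (R ⊓ F3)
  rw [hinf, finrank_bot, add_zero] at hsum
  have hle : (R ⊓ F7) ⊔ (R ⊓ F3) ≤ R := sup_le inf_le_left inf_le_left
  have hfle := Submodule.finrank_mono hle
  have hdec : ∀ y : Fin t → ZMod 2, (fun l => if g l = false then y l else 0) +
      (fun l => if g l = true then y l else 0) = y := by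
    intro y
    funext l
    show (if g l = false then y l else 0) + (if g l = true then y l else 0) = y l
    cases hg : g l with
    | false => simp
    | true => simp
  refine ⟨Module.finrank (ZMod 2) R, Module.finrank (ZMod 2) ↥(R ⊓ F7),
    Module.finrank (ZMod 2) ↥(R ⊓ F3), rk_pow R, ?_, ?_, ?_, ?_, ?_, ?_, ?_, ?_⟩
  · rw [← hF7]; exact rk_pow _
  · rw [← hF3]; exact rk_pow _
  · omega
  · have h1 := Submodule.finrank_le R
    rwa [Module.finrank_fintype_fun_eq_card, Fintype.card_fin] at h1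
  · intro he y hy f
    have h1 : (R ⊓ F7) ⊔ (R ⊓ F3) = R := Submodule.eq_of_le_of_finrank_eq hle (by omega)
    have h2 : y ∈ (R ⊓ F7) ⊔ (R ⊓ F3) := by rw [h1]; exact hy
    obtain ⟨y7, hy7, y3, hy3, rfl⟩ := Submodule.mem_sup.1 h2
    rw [Submodule.mem_inf] at hy7 hy3
    have e7 := (m7' y7).1 hy7.2
    have e3 := (m3' y3).1 hy3.2
    cases f with
    | false =>
      have : (fun l => if g l = false then (y7 + y3) l else 0) = y7 := by
        funext l
        show (if g l = false then y7 l + y3 l else 0) = y7 l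
        split_ifs with h
        · rw [e3 l h, add_zero]
        · rw [e7 l ((hbf _).1 h)]
      rw [this]
      exact hy7.1
    | true =>
      have : (fun l => if g l = true then (y7 + y3) l else 0) = y3 := by
        funext l
        show (if g l = true then y7 l + y3 l else 0) = y3 l
        split_ifs with h
        · rw [e7 l h, zero_add]
        · rw [e3 l ((hbt _).1 h)]
      rw [this]
      exact hy3.1
  · intro h
    by_contra hc
    push Not at hc
    apply h
    have : R ⊓ F7 = ⊥ := by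
      rw [eq_bot_iff]
      intro y hy
      rw [Submodule.mem_inf] at hy
      rw [Submodule.mem_bot]
      funext l
      exact (m7' y).1 hy.2 l ((hbf _).1 (hc l))
    rw [this, finrank_bot]
  · intro h
    by_contra hc
    push Not at hc
    apply h
    have : R ⊓ F3 = ⊥ := by
      rw [eq_bot_iff]
      intro y hy
      rw [Submodule.mem_inf] at hy
      rw [Submodule.mem_bot]
      funext l
      exact (m3' y).1 hy.2 l ((hbt _).1 (hc l))
    rw [this, finrank_bot]
  · intro h
    constructor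
    · by_contra hc
      push Not at hc
      apply h
      have h3 : R ⊓ F3 = R := by
        refine inf_eq_left.2 fun y _ => ?_
        rw [m3']
        exact fun l hl => absurd hl (hc l)
      rw [h3] at hsum hinf ⊢
      have h7 : R ⊓ F7 = ⊥ := by
        rw [← hinf]
        exact (inf_eq_left.2 inf_le_left).symm
      rw [h7, finrank_bot, zero_add]
    · by_contra hc
      push Not at hc
      apply h
      have h3 : R ⊓ F7 = R := by
        refine inf_eq_left.2 fun y _ => ?_
        rw [m7']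
        exact fun l hl => absurd hl (hc l)
      rw [h3] at hsum hinf ⊢
      have h7 : R ⊓ F3 = ⊥ := by
        rw [← hinf]
        exact (inf_eq_right.2 inf_le_left).symm
      rw [h7, finrank_bot, add_zero]

end

/-! ### The hypotheses -/

section
variable {t : ℕ} {U : Fin t → Type} [∀ l, Fintype (U l)] {J : Type} [Fintype J] [LinearOrder J]

/-- the hypotheses: `J1 f` are the large indices which split in the field `f`, `PJ f` the large columns
of the systems of the field `f`; `JR r` are indices of a class which separates the systems of the field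
`fr r`, `JS` indices which split in the field `false` and not in the field `true` -/
structure GhX (g : Fin t → Bool) (J1 PJ : Bool → Finset J) (Sp Pc : ∀ l, Finset (U l ⊕ J))
    (N : ∀ l, U l ⊕ J → U l ⊕ J → ZMod 2) (b : ∀ l, U l ⊕ J → ZMod 2) (NJ : J → J → ZMod 2)
    {ρ : Type} (fr : ρ → Bool) (x : Fin t → ρ → ZMod 2) (JR : ρ → Finset J) (JS : Finset J)
    (Q e : ℕ) : Prop where
  sp : ∀ l k, Sum.inr k ∈ Sp l ↔ k ∈ J1 (g l)
  pc : ∀ l k, Sum.inr k ∈ Pc l ↔ k ∈ PJ (g l)
  nj : ∀ l k k', N l (Sum.inr k) (Sum.inr k') = NJ k k'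
  nd : ∀ l (w : U l → ZMod 2), (∃ v, w v ≠ 0) →
    ∃ k ∈ PJ (g l), ∑ v, w v * N l (Sum.inl v) (Sum.inr k) ≠ 0
  ine : ∃ o, ∀ f, o ∉ J1 f ∧ o ∉ PJ f
  par : ∀ k, (k ∈ J1 false ↔ k ∈ PJ false) ↔ (k ∈ J1 true ↔ k ∈ PJ true)
  cl : ∀ r, ∀ j ∈ JR r, j ∈ J1 (fr r) ∧ j ∈ PJ (fr r) ∧
    ∀ l l', g l = fr r → g l' = fr r → tau N b l j + x l r = tau N b l' j + x l' r
  sep : ∀ l l' : Fin t, l ≠ l' → g l = g l' → ∃ r, fr r = g l ∧ x l r ≠ x l' r
  hQ : ∀ r, Q ≤ (JR r).card
  he : ∀ l, (J1 (g l)).card ≤ (PJ (g l)).card + e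
  js : ∀ j ∈ JS, j ∈ J1 false ∧ j ∉ J1 true
  QS : Q + e ≤ JS.card

variable {g : Fin t → Bool} {J1 PJ : Bool → Finset J} {Sp Pc : ∀ l, Finset (U l ⊕ J)}
  {N : ∀ l, U l ⊕ J → U l ⊕ J → ZMod 2} {b : ∀ l, U l ⊕ J → ZMod 2} {NJ : J → J → ZMod 2}
  {ρ : Type} {fr : ρ → Bool} {x : Fin t → ρ → ZMod 2} {JR : ρ → Finset J} {JS : Finset J} {Q e : ℕ}

/-- the equation at a large index -/
theorem eq_atX (nj : ∀ l k k', N l (Sum.inr k) (Sum.inr k') = NJ k k') (su : ∀ l, U l → ZMod 2)
    (v : J → Fin t → ZMod 2) (σ : ps J → ZMod 2) (l : Fin t) (j : J) :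
    Ph (pt (N l) (Pool.Agent.N916.GB.sx σ)) (b l) (mkv su v l) (Sum.inr j) =
      (cc N b NJ su v j + ∑ k, Pool.Agent.N916.GB.sx σ k j • (v k + v j)) l := by
  rw [Ph_inr]
  have h1 : Ph (N l) (b l) (mkv su v l) (Sum.inr j) = cc N b NJ su v j l := by
    unfold Ph TT cc aa tau
    rw [Fintype.sum_sum_type, Fintype.sum_sum_type]
    have e1 : ∀ u, mkv su v l (Sum.inl u) = su l u := fun _ => rfl
    have e2 : ∀ k, mkv su v l (Sum.inr k) = v k l := fun _ => rfl
    simp only [e1, e2, nj]
    simp only [Pi.add_apply, Finset.sum_apply, Pi.smul_apply, smul_eq_mul]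
    have e3 : ∑ k, v k l * NJ k j = ∑ k, NJ k j * v k l := sum_congr rfl fun k _ => mul_comm _ _
    rw [e3]
    ring
  rw [h1]
  simp only [Pi.add_apply, Finset.sum_apply, Pi.smul_apply, smul_eq_mul, Pi.add_apply, mul_add,
    sum_add_distrib]
  have e2 : ∀ k, mkv su v l (Sum.inr k) = v k l := fun _ => rfl
  simp only [e2]
  have e3 : ∑ k, v k l * Pool.Agent.N916.GB.sx σ k j =
      ∑ k, Pool.Agent.N916.GB.sx σ k j * v k l := sum_congr rfl fun k _ => mul_comm _ _
  have e4 : (∑ k, Pool.Agent.N916.GB.sx σ j k) * v j l =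
      ∑ k, Pool.Agent.N916.GB.sx σ k j * v j l := by
    rw [sum_mul]
    exact sum_congr rfl fun k _ => by rw [gsx_symm]
  rw [e3, e4, add_assoc]

/-- the completions which solve the equations -/
noncomputable def SolX (g : Fin t → Bool) (PJ : Bool → Finset J)
    (N : ∀ l, U l ⊕ J → U l ⊕ J → ZMod 2)
    (b : ∀ l, U l ⊕ J → ZMod 2) (NJ : J → J → ZMod 2) (su : ∀ l, U l → ZMod 2)
    (v : J → Fin t → ZMod 2) : Finset (ps J → ZMod 2) :=
  univ.filter fun σ => ∀ j l, j ∈ PJ (g l) →
    (cc N b NJ su v j + ∑ k, Pool.Agent.N916.GB.sx σ k j • (v k + v j)) l = 0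

/-- the vectors of `R` which vanish at the systems with the column `j` -/
noncomputable def bR (g : Fin t → Bool) (PJ : Bool → Finset J)
    (R : Submodule (ZMod 2) (Fin t → ZMod 2)) (j : J) : ℕ := rk (R ⊓ Vn fun l => j ∉ PJ (g l))

/-- the vectors of `R` which vanish at the systems where `k` is not split -/
noncomputable def aR (g : Fin t → Bool) (J1 : Bool → Finset J)
    (R : Submodule (ZMod 2) (Fin t → ZMod 2)) (k : J) : ℕ := rk (R ⊓ Vn fun l => k ∈ J1 (g l))

/-- **the number of the solutions** -/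
theorem solX_card (hine : ∃ o, ∀ f, o ∉ J1 f ∧ o ∉ PJ f) (su : ∀ l, U l → ZMod 2)
    {v : J → Fin t → ZMod 2} (h0 : ∀ k l, k ∉ J1 (g l) → v k l = 0) :
    (SolX g PJ N b NJ su v).card *
      rk (Submodule.span (ZMod 2) (Set.range v)) ^ Fintype.card J ≤
      2 ^ (ps J).card * (∏ j, bR g PJ (Submodule.span (ZMod 2) (Set.range v)) j) *
      rk (Submodule.span (ZMod 2) (Set.range v)) ^ (t + 1) := by
  obtain ⟨o, ho⟩ := hine
  have : Nonempty J := ⟨o⟩
  set R := Submodule.span (ZMod 2) (Set.range v) with hR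
  have hvR : ∀ k, v k ∈ R := fun k => Submodule.subset_span (Set.mem_range_self k)
  have hvo : v o = 0 := by
    funext l
    exact h0 o l (ho (g l)).1
  rcases (SolX g PJ N b NJ su v).eq_empty_or_nonempty with hemp | ⟨σ₀, hσ₀⟩
  · rw [hemp, card_empty, zero_mul]
    exact Nat.zero_le _
  obtain ⟨K, hK, hKs⟩ := few_span v
  set P' : Finset J := univ \ (insert o K) with hP'
  -- the homomorphism
  set f : (ps J → ZMod 2) →+ ({j // j ∈ P'} → R) :=
    { toFun := fun σ j => ⟨∑ k, Pool.Agent.N916.GB.sx σ k j.1 • (v k + v j.1),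
        R.sum_mem fun k _ => R.smul_mem _ (R.add_mem (hvR k) (hvR j.1))⟩
      map_zero' := by
        funext j
        apply Subtype.ext
        show ∑ k, Pool.Agent.N916.GB.sx (0 : ps J → ZMod 2) k j.1 • (v k + v j.1) = 0
        refine sum_eq_zero fun k _ => ?_
        have : Pool.Agent.N916.GB.sx (0 : ps J → ZMod 2) k j.1 = 0 := by
          unfold Pool.Agent.N916.GB.sx
          split_ifs <;> rfl
        rw [this, zero_smul]
      map_add' := fun σ τ => by
        funext j
        apply Subtype.ext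
        show ∑ k, Pool.Agent.N916.GB.sx (σ + τ) k j.1 • (v k + v j.1) =
          ∑ k, Pool.Agent.N916.GB.sx σ k j.1 • (v k + v j.1) +
          ∑ k, Pool.Agent.N916.GB.sx τ k j.1 • (v k + v j.1)
        rw [← sum_add_distrib]
        exact sum_congr rfl fun k _ => by rw [gsx_add, add_smul] } with hf
  have hfv : ∀ σ (j : {j // j ∈ P'}), ((f σ j : R) : Fin t → ZMod 2) =
      ∑ k, Pool.Agent.N916.GB.sx σ k j.1 • (v k + v j.1) := fun _ _ => rfl
  have hsurj : Function.Surjective f := by
    intro w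
    have hw : ∀ j : {j // j ∈ P'}, ∃ g : J → ZMod 2, (∀ k, k ∉ K → g k = 0) ∧
        ∑ k, g k • v k = (w j : Fin t → ZMod 2) := fun j => hKs _ (w j).2
    choose g' hg1 hg2 using hw
    set G : J → J → ZMod 2 := fun j k => if h : j ∈ P' then
      g' ⟨j, h⟩ k + (if k = o then ∑ k', g' ⟨j, h⟩ k' else 0) else 0 with hG
    set D : J → J → ZMod 2 := fun k j => G j k + G k j with hD
    refine ⟨fun e => D e.1.1 e.1.2, ?_⟩
    funext j
    apply Subtype.ext
    rw [hfv]
    have hjP : j.1 ∈ P' := j.2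
    have hjn : j.1 ∉ insert o K := (mem_sdiff.1 hjP).2
    have hjK : j.1 ∉ K := fun h => hjn (mem_insert_of_mem h)
    have hjo : j.1 ≠ o := fun h => hjn (by rw [h]; exact mem_insert_self _ _)
    have h1 : ∀ k, Pool.Agent.N916.GB.sx (fun e : ps J => D e.1.1 e.1.2) k j.1 • (v k + v j.1) =
        G j.1 k • (v k + v j.1) := by
      intro k
      by_cases hk : k = j.1
      · rw [hk, vadd_self, smul_zero, smul_zero]
      · rw [gsx_of D (fun a c => by rw [hD]; exact add_comm _ _) hk]
        have h2 : G k j.1 = 0 := by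
          rw [hG]
          simp only
          split_ifs with h3
          · rw [hg1 _ _ hjK, add_zero]
          · rfl
        show (G j.1 k + G k j.1) • _ = _
        rw [h2, add_zero]
    rw [sum_congr rfl fun k _ => h1 k]
    have h2 : ∀ k, G j.1 k = g' j k + (if k = o then ∑ k', g' j k' else 0) := by
      intro k
      rw [hG]
      exact dif_pos hjP
    have h3 : ∀ k, G j.1 k • (v k + v j.1) = g' j k • v k + g' j k • v j.1 +
        (if k = o then (∑ k', g' j k') • (v o + v j.1) else 0) := by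
      intro k
      rw [h2, add_smul, smul_add]
      congr 1
      split_ifs with h4
      · rw [h4]
      · rw [zero_smul]
    rw [sum_congr rfl fun k _ => h3 k, sum_add_distrib, sum_add_distrib, sum_ite_eq' univ o,
      if_pos (mem_univ _), hg2, ← sum_smul, hvo, zero_add, add_assoc, vadd_self, add_zero]
  have hcardR : Fintype.card R = rk R := by
    unfold rk
    exact Fintype.card_subtype _
  have hfib : ∀ w, (univ.filter fun σ => f σ = w).card * rk R ^ P'.card = 2 ^ (ps J).card := by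
    intro w
    have h1 := fib_card f hsurj w
    rw [Fintype.card_fun, hcardR, Fintype.card_coe, Fintype.card_fun, ZMod.card,
      Fintype.card_coe] at h1
    convert h1
  -- the possible values
  set B : Finset ({j // j ∈ P'} → R) := Fintype.piFinset fun j : {j // j ∈ P'} =>
    univ.filter fun y : R => ∀ l, j.1 ∈ PJ (g l) → (y : Fin t → ZMod 2) l =
      (f σ₀ j : Fin t → ZMod 2) l with hB
  have hsub : SolX g PJ N b NJ su v ⊆ B.biUnion fun w => univ.filter fun σ => f σ = w := by
    intro σ hσ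
    unfold SolX at hσ hσ₀
    rw [mem_filter] at hσ hσ₀
    rw [mem_biUnion]
    refine ⟨f σ, ?_, mem_filter.2 ⟨mem_univ _, rfl⟩⟩
    rw [hB, Fintype.mem_piFinset]
    intro j
    rw [mem_filter]
    refine ⟨mem_univ _, fun l hl => ?_⟩
    rw [hfv, hfv]
    have h2 := hσ.2 j.1 l hl
    have h3 := hσ₀.2 j.1 l hl
    rw [Pi.add_apply] at h2 h3
    exact add_left_cancel (h2.trans h3.symm)
  have hBc : B.card ≤ ∏ j, bR g PJ R j := by
    rw [hB, Fintype.card_piFinset]
    have h1 : ∀ j : {j // j ∈ P'}, (univ.filter fun y : R => ∀ l, j.1 ∈ PJ (g l) →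
        (y : Fin t → ZMod 2) l = (f σ₀ j : Fin t → ZMod 2) l).card ≤ bR g PJ R j.1 := by
      intro j
      unfold bR rk
      refine card_le_card_of_injOn (fun y => (y : Fin t → ZMod 2) + (f σ₀ j : R)) ?_ ?_
      · intro y hy
        rw [mem_coe, mem_filter] at hy
        rw [mem_coe, mem_filter, Submodule.mem_inf, mem_Vn]
        refine ⟨mem_univ _, R.add_mem y.2 (f σ₀ j).2, fun l hl => ?_⟩
        rw [not_not] at hl
        show (y : Fin t → ZMod 2) l + (f σ₀ j : Fin t → ZMod 2) l = 0
        rw [hy.2 l hl]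
        exact z2_add _
      · intro y _ y' _ h
        exact Subtype.ext (add_right_cancel h)
    refine (prod_le_prod' fun j _ => h1 j).trans ?_
    rw [Finset.prod_coe_sort P' fun j => bR g PJ R j]
    refine prod_le_prod_of_subset_of_one_le' (subset_univ _) fun j _ _ => ?_
    exact rk_pos _
  have h4 : (SolX g PJ N b NJ su v).card * rk R ^ P'.card ≤
      (∏ j, bR g PJ R j) * 2 ^ (ps J).card := by
    refine (Nat.mul_le_mul_right _ ((card_le_card hsub).trans card_biUnion_le)).trans ?_
    rw [sum_mul, sum_congr rfl fun w _ => hfib w, sum_const, smul_eq_mul]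
    exact Nat.mul_le_mul_right _ hBc
  have hPJ : Fintype.card J ≤ P'.card + (t + 1) := by
    have h2 := card_le_card_sdiff_add_card (s := (univ : Finset J)) (t := insert o K)
    have h3 := card_insert_le o K
    rw [← card_univ, hP']
    omega
  have hpos := rk_pos R
  calc (SolX g PJ N b NJ su v).card * rk R ^ Fintype.card J
      ≤ (SolX g PJ N b NJ su v).card * rk R ^ (P'.card + (t + 1)) :=
        Nat.mul_le_mul_left _ (Nat.pow_le_pow_right hpos hPJ)
    _ = ((SolX g PJ N b NJ su v).card * rk R ^ P'.card) * rk R ^ (t + 1) := by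
        rw [pow_add]; ring
    _ ≤ ((∏ j, bR g PJ R j) * 2 ^ (ps J).card) * rk R ^ (t + 1) := Nat.mul_le_mul_right _ h4
    _ = _ := by ring

/-- the values which occur with the space `R` -/
noncomputable def TRX (g : Fin t → Bool) (J1 PJ : Bool → Finset J)
    (N : ∀ l, U l ⊕ J → U l ⊕ J → ZMod 2)
    (b : ∀ l, U l ⊕ J → ZMod 2) (R : Submodule (ZMod 2) (Fin t → ZMod 2))
    (su : ∀ l, U l → ZMod 2) : Finset (J → Fin t → ZMod 2) :=
  univ.filter fun v => (∀ k, v k ∈ R ⊓ Vn fun l => k ∈ J1 (g l)) ∧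
    ∀ j, ∃ w ∈ R, ∀ l, j ∈ PJ (g l) → aa N su j l + tau N b l j * v j l = w l

theorem trX_le (R : Submodule (ZMod 2) (Fin t → ZMod 2)) (su : ∀ l, U l → ZMod 2) :
    (TRX g J1 PJ N b R su).card ≤ ∏ k, aR g J1 R k := by
  have hsub : TRX g J1 PJ N b R su ⊆ Fintype.piFinset fun k : J =>
      univ.filter fun y : Fin t → ZMod 2 => y ∈ R ⊓ Vn fun l => k ∈ J1 (g l) := by
    intro v hv
    unfold TRX at hv
    rw [mem_filter] at hv
    rw [Fintype.mem_piFinset]
    intro k
    exact mem_filter.2 ⟨mem_univ _, hv.2.1 k⟩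
  refine (card_le_card hsub).trans (le_of_eq ?_)
  rw [Fintype.card_piFinset]
  rfl

/-- the number of the values which occur, the space being the sum of its parts -/
theorem trX_split (H : GhX g J1 PJ Sp Pc N b NJ fr x JR JS Q e)
    {R : Submodule (ZMod 2) (Fin t → ZMod 2)}
    (hsp : ∀ y ∈ R, ∀ f, (fun l => if g l = f then y l else 0) ∈ R)
    (hR : R ≠ ⊥) (hH : ∀ y ∈ R, ∑ l, y l = 0) (su : ∀ l, U l → ZMod 2) :
    (TRX g J1 PJ N b R su).card * 2 ^ Q ≤ ∏ k, aR g J1 R k := by
  -- a field with a nonzero part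
  obtain ⟨f, hf⟩ : ∃ f, R ⊓ Vn (fun l => g l = f) ≠ ⊥ := by
    obtain ⟨y, hy, hy0⟩ := Submodule.exists_mem_ne_zero_of_ne_bot hR
    obtain ⟨l, hl⟩ : ∃ l, y l ≠ 0 := by
      by_contra h
      push Not at h
      exact hy0 (funext h)
    refine ⟨g l, fun h => hl ?_⟩
    have h1 : (fun l' => if g l' = g l then y l' else 0) ∈ R ⊓ Vn (fun l' => g l' = g l) := by
      rw [Submodule.mem_inf, mem_Vn]
      exact ⟨hsp y hy (g l), fun l' hl' => if_neg hl'⟩
    rw [h, Submodule.mem_bot] at h1
    have h2 := congrFun h1 l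
    simpa using h2
  obtain ⟨r, hrf, y, hy, hn⟩ := stable_botF (R := R ⊓ Vn fun l => g l = f) (f := f) H.sep hf
    (fun y hy => hH y (Submodule.mem_inf.1 hy).1)
    (fun y hy l hl => mem_Vn.1 (Submodule.mem_inf.1 hy).2 l hl)
  have hyR := (Submodule.mem_inf.1 hy).1
  have hyV := mem_Vn.1 (Submodule.mem_inf.1 hy).2
  obtain ⟨ξ, hξ⟩ : ∃ ξ : Fin t → ZMod 2, ξ = fun l => if g l = f then x l r else 0 := ⟨_, rfl⟩
  have hn' : (fun l => ξ l * y l) ∉ R := by
    intro h
    apply hn
    have e1 : (fun l => x l r * y l) = fun l => ξ l * y l := by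
      funext l
      rw [hξ]
      simp only
      split_ifs with h1
      · rfl
      · rw [hyV l h1, mul_zero, mul_zero]
    rw [e1, Submodule.mem_inf, mem_Vn]
    refine ⟨h, fun l hl => ?_⟩
    rw [hyV l hl, mul_zero]
  obtain ⟨a', ha'⟩ : ∃ a' : J → Fin t → ZMod 2, a' = fun k l => if g l = f then aa N su k l else 0 :=
    ⟨_, rfl⟩
  set A : J → Finset (Fin t → ZMod 2) := fun k =>
    if k ∈ JR r then univ.filter (fun v => v ∈ (R ⊓ Vn fun l => k ∈ J1 (g l)) ∧
      (fun l => a' k l + ξ l * v l) ∈ R)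
    else univ.filter fun v => v ∈ R ⊓ Vn fun l => k ∈ J1 (g l) with hA
  have ht0 : ∀ j ∈ JR r, ∃ c : ZMod 2, ∀ l, g l = f → tau N b l j = x l r + c := by
    intro j hj
    by_cases h : ∃ l₀, g l₀ = f
    · obtain ⟨l₀, h₀⟩ := h
      refine ⟨tau N b l₀ j + x l₀ r, fun l hl => ?_⟩
      have h1 := (H.cl r j hj).2.2 l l₀ (hl.trans hrf.symm) (h₀.trans hrf.symm)
      have : ∀ a b c d : ZMod 2, a + b = c + d → a = b + (c + d) := by decide
      exact this _ _ _ _ h1
    · exact ⟨0, fun l hl => absurd ⟨l, hl⟩ h⟩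
  have hsub : TRX g J1 PJ N b R su ⊆ Fintype.piFinset A := by
    intro v hv
    unfold TRX at hv
    rw [mem_filter] at hv
    obtain ⟨-, h1, h2⟩ := hv
    rw [Fintype.mem_piFinset]
    intro k
    rw [hA]
    simp only
    split_ifs with hk
    · rw [mem_filter]
      refine ⟨mem_univ _, h1 k, ?_⟩
      obtain ⟨c, hc⟩ := ht0 k hk
      obtain ⟨w, hw, hw2⟩ := h2 k
      have hv1 := hsp (v k) (Submodule.mem_inf.1 (h1 k)).1 f
      have h4 := R.add_mem (hsp w hw f) (R.smul_mem c hv1)
      have h5 : (fun l => a' k l + ξ l * v k l) = (fun l => if g l = f then w l else 0) +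
          c • (fun l => if g l = f then v k l else 0) := by
        funext l
        simp only [Pi.add_apply, Pi.smul_apply, smul_eq_mul, hξ, ha']
        by_cases hl : g l = f
        · rw [if_pos hl, if_pos hl, if_pos hl, if_pos hl]
          have h6 := hw2 l (by rw [hl, ← hrf]; exact (H.cl r k hk).2.1)
          rw [hc l hl] at h6
          rw [← h6]
          have : ∀ a p q w : ZMod 2, a + p * w = a + (p + q) * w + q * w := by decide
          exact this _ _ _ _
        · rw [if_neg hl, if_neg hl, if_neg hl, if_neg hl]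
          ring
      rw [h5]
      exact h4
    · rw [mem_filter]
      exact ⟨mem_univ _, h1 k⟩
  have hcardA : ∀ k, (A k).card * (if k ∈ JR r then 2 else 1) ≤ aR g J1 R k := by
    intro k
    rw [hA]
    simp only
    by_cases hk : k ∈ JR r
    · rw [if_pos hk, if_pos hk, mul_comm]
      refine halfA (y := y) ?_ hn' (a' k)
      rw [Submodule.mem_inf, mem_Vn]
      refine ⟨hyR, fun l hl => hyV l fun h => hl ?_⟩
      rw [h, ← hrf]
      exact (H.cl r k hk).1
    · rw [if_neg hk, if_neg hk, mul_one]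
      exact le_rfl
  have h1 : (Fintype.piFinset A).card * 2 ^ (JR r).card ≤ ∏ k, aR g J1 R k := by
    rw [Fintype.card_piFinset]
    have e1 : 2 ^ (JR r).card = ∏ k : J, if k ∈ JR r then 2 else 1 := by
      rw [← prod_filter, filter_mem_eq_inter, univ_inter, prod_const]
    rw [e1, ← prod_mul_distrib]
    exact prod_le_prod' fun k _ => hcardA k
  calc (TRX g J1 PJ N b R su).card * 2 ^ Q
      ≤ (Fintype.piFinset A).card * 2 ^ (JR r).card :=
        Nat.mul_le_mul (card_le_card hsub) (Nat.pow_le_pow_right (by norm_num) (H.hQ r))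
    _ ≤ _ := h1

/-- the exponent of a part -/
def ex (r a b : ℕ) (p q : Prop) [Decidable p] [Decidable q] : ℕ :=
  if p then (if q then r else a) else if q then b else 0

theorem rk_ex {R : Submodule (ZMod 2) (Fin t → ZMod 2)} {r a b : ℕ} (hE : Exq g R r a b)
    (T : Bool → Prop) [Decidable (T false)] [Decidable (T true)] :
    rk (R ⊓ Vn fun l => T (g l)) = 2 ^ ex r a b (T false) (T true) := by
  unfold ex
  by_cases h7 : T false <;> by_cases h3 : T true
  · rw [if_pos h7, if_pos h3, ← hE.er]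
    congr 1
    refine inf_eq_left.2 fun y _ => ?_
    rw [mem_Vn]
    intro l hl
    refine absurd ?_ hl
    cases g l <;> assumption
  · rw [if_pos h7, if_neg h3, ← hE.ea]
    congr 2
    ext y
    rw [mem_Vn, mem_Vn]
    refine forall_congr' fun l => imp_congr ?_ Iff.rfl
    cases g l <;> simp [h7, h3]
  · rw [if_neg h7, if_pos h3, ← hE.eb]
    congr 2
    ext y
    rw [mem_Vn, mem_Vn]
    refine forall_congr' fun l => imp_congr ?_ Iff.rfl
    cases g l <;> simp [h7, h3]
  · rw [if_neg h7, if_neg h3, pow_zero]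
    have h1 : (R ⊓ Vn fun l => T (g l)) = ⊥ := by
      rw [eq_bot_iff]
      intro y hy
      rw [Submodule.mem_inf, mem_Vn] at hy
      rw [Submodule.mem_bot]
      funext l
      refine hy.2 l ?_
      cases g l <;> assumption
    rw [h1, rk_pow, finrank_bot, pow_zero]

/-- **the exponents** -/
theorem exp_sum (H : GhX g J1 PJ Sp Pc N b NJ fr x JR JS Q e)
    {R : Submodule (ZMod 2) (Fin t → ZMod 2)} {r a b' : ℕ} (hE : Exq g R r a b') :
    ∑ k, ex r a b' (k ∈ J1 false) (k ∈ J1 true) + ∑ k, ex r a b' (k ∉ PJ false) (k ∉ PJ true) +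
      (if a + b' = r then 0 else Q) ≤ r * Fintype.card J + t * e := by
  have hle := hE.le
  have hrt := hE.rt
  have key : ∀ k : J, ((ex r a b' (k ∈ J1 false) (k ∈ J1 true) : ℕ) : ℤ) +
      ((ex r a b' (k ∉ PJ false) (k ∉ PJ true) : ℕ) : ℤ) ≤ r +
      a * ((if k ∈ J1 false then 1 else 0) - (if k ∈ PJ false then 1 else 0)) +
      b' * ((if k ∈ J1 true then 1 else 0) - (if k ∈ PJ true then 1 else 0)) +
      (r - a - b') * ((if k ∈ J1 false then 1 else 0) - (if k ∈ PJ false then 1 else 0) -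
        (if k ∈ JS then 1 else 0)) := by
    intro k
    have hp := H.par k
    have hj := H.js k
    unfold ex
    by_cases h1 : k ∈ J1 false <;> by_cases h2 : k ∈ PJ false <;> by_cases h3 : k ∈ J1 true <;>
      by_cases h4 : k ∈ PJ true <;> by_cases h5 : k ∈ JS <;>
      simp only [h1, h2, h3, h4, h5, if_true, if_false, not_true_eq_false, not_false_eq_true,
        iff_true, iff_false, and_true, and_false, true_imp_iff,
        imp_false, Nat.cast_zero] at hp hj ⊢ <;>
      omega
  have hsum := sum_le_sum fun k (_ : k ∈ (univ : Finset J)) => key k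
  have hi : ∀ A : Finset J, ∑ k : J, (if k ∈ A then (1 : ℤ) else 0) = A.card := by
    intro A
    rw [sum_ite_mem, univ_inter, sum_const, nsmul_eq_mul, mul_one]
  rw [sum_add_distrib, sum_add_distrib, sum_add_distrib, sum_add_distrib, ← mul_sum, ← mul_sum,
    ← mul_sum, sum_sub_distrib, sum_sub_distrib, sum_sub_distrib, sum_sub_distrib, hi, hi, hi, hi,
    hi, sum_const, card_univ, nsmul_eq_mul] at hsum
  have hJS := H.QS
  have f7 : (a : ℤ) * (((J1 false).card : ℤ) - ((PJ false).card : ℤ)) ≤ a * e := by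
    by_cases ha : a = 0
    · rw [ha]; simp
    · obtain ⟨l, hl⟩ := hE.na ha
      have h1 := H.he l
      rw [hl] at h1
      refine mul_le_mul_of_nonneg_left ?_ (Nat.cast_nonneg _)
      have : ((J1 false).card : ℤ) ≤ (PJ false).card + e := by exact_mod_cast h1
      linarith
  have f3 : (b' : ℤ) * (((J1 true).card : ℤ) - ((PJ true).card : ℤ)) ≤ b' * e := by
    by_cases ha : b' = 0
    · rw [ha]; simp
    · obtain ⟨l, hl⟩ := hE.nb ha
      have h1 := H.he l
      rw [hl] at h1
      refine mul_le_mul_of_nonneg_left ?_ (Nat.cast_nonneg _)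
      have : ((J1 true).card : ℤ) ≤ (PJ true).card + e := by exact_mod_cast h1
      linarith
  have fe : ((a : ℤ) + b') * e ≤ t * e := by
    refine mul_le_mul_of_nonneg_right ?_ (Nat.cast_nonneg _)
    have : a + b' ≤ t := hle.trans hrt
    exact_mod_cast this
  have fq : ((r : ℤ) - a - b') * (((J1 false).card : ℤ) - ((PJ false).card : ℤ) -
      (JS.card : ℤ)) + ((if a + b' = r then 0 else Q : ℕ) : ℤ) ≤ 0 := by
    split_ifs with he
    · have : (r : ℤ) - a - b' = 0 := by
        have : (a : ℤ) + b' = r := by exact_mod_cast he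
        linarith
      rw [this]
      simp
    · obtain ⟨⟨l, hl⟩, -⟩ := hE.ne he
      have h1 := H.he l
      rw [hl] at h1
      have h2 : ((J1 false).card : ℤ) - ((PJ false).card : ℤ) - (JS.card : ℤ) ≤ -Q := by
        have h3 : ((J1 false).card : ℤ) ≤ (PJ false).card + e := by exact_mod_cast h1
        have h4 : (Q : ℤ) + e ≤ JS.card := by exact_mod_cast hJS
        linarith
      have h3 : (1 : ℤ) ≤ (r : ℤ) - a - b' := by
        have : a + b' < r := lt_of_le_of_ne hle he
        have : (a : ℤ) + b' < r := by exact_mod_cast this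
        linarith
      have hQ0 : (0 : ℤ) ≤ Q := Nat.cast_nonneg _
      nlinarith
  have hfin : ((∑ k, ex r a b' (k ∈ J1 false) (k ∈ J1 true) +
      ∑ k, ex r a b' (k ∉ PJ false) (k ∉ PJ true) +
      (if a + b' = r then 0 else Q) : ℕ) : ℤ) ≤ ((r * Fintype.card J + t * e : ℕ) : ℤ) := by
    push_cast at fq ⊢
    nlinarith [hsum, f7, f3, fe, fq]
  exact_mod_cast hfin

/-- the count for a space -/
theorem one_space (H : GhX g J1 PJ Sp Pc N b NJ fr x JR JS Q e)
    {R : Submodule (ZMod 2) (Fin t → ZMod 2)} (hR : R ≠ ⊥) (hH : ∀ y ∈ R, ∑ l, y l = 0)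
    (su : ∀ l, U l → ZMod 2) :
    (((TRX g J1 PJ N b R su).filter fun v => Submodule.span (ZMod 2) (Set.range v) = R).biUnion
        fun v => SolX g PJ N b NJ su v).card * 2 ^ Q ≤
      2 ^ (ps J).card * 2 ^ (t * (t + 1) + t * e) := by
  obtain ⟨r, a, b', hE⟩ := exq g R
  have hexp := exp_sum H hE
  have haR : ∏ k, aR g J1 R k = 2 ^ ∑ k, ex r a b' (k ∈ J1 false) (k ∈ J1 true) := by
    rw [← prod_pow_eq_pow_sum]
    exact prod_congr rfl fun k _ => rk_ex hE fun f => k ∈ J1 f
  have hbR : ∏ k, bR g PJ R k = 2 ^ ∑ k, ex r a b' (k ∉ PJ false) (k ∉ PJ true) := by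
    rw [← prod_pow_eq_pow_sum]
    exact prod_congr rfl fun k _ => rk_ex hE fun f => k ∉ PJ f
  -- the values
  have hT : (TRX g J1 PJ N b R su).card * 2 ^ Q ≤
      (∏ k, aR g J1 R k) * 2 ^ (if a + b' = r then 0 else Q) := by
    split_ifs with he
    · rw [pow_zero, mul_one]
      exact trX_split H (hE.eq he) hR hH su
    · exact Nat.mul_le_mul_right _ (trX_le R su)
  set T' := (TRX g J1 PJ N b R su).filter fun v => Submodule.span (ZMod 2) (Set.range v) = R
    with hT'
  have hsol : ∀ v ∈ T', (SolX g PJ N b NJ su v).card * rk R ^ Fintype.card J ≤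
      2 ^ (ps J).card * (∏ j, bR g PJ R j) * rk R ^ (t + 1) := by
    intro v hv
    rw [hT', mem_filter] at hv
    obtain ⟨hv1, hv2⟩ := hv
    unfold TRX at hv1
    rw [mem_filter] at hv1
    have h3 := solX_card (g := g) (J1 := J1) (PJ := PJ) (N := N) (b := b) (NJ := NJ) H.ine su
      (v := v) (fun k l hk => mem_Vn.1 (Submodule.mem_inf.1 (hv1.2.1 k)).2 l hk)
    rwa [hv2] at h3
  have h3 : (T'.biUnion fun v => SolX g PJ N b NJ su v).card * rk R ^ Fintype.card J ≤
      T'.card * (2 ^ (ps J).card * (∏ j, bR g PJ R j) * rk R ^ (t + 1)) := by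
    refine (Nat.mul_le_mul_right _ card_biUnion_le).trans ?_
    rw [sum_mul]
    refine (sum_le_sum hsol).trans (le_of_eq ?_)
    rw [sum_const, smul_eq_mul]
  have hT2 : T'.card * 2 ^ Q ≤ (∏ k, aR g J1 R k) * 2 ^ (if a + b' = r then 0 else Q) :=
    (Nat.mul_le_mul_right _ (card_le_card (filter_subset _ _))).trans hT
  have hrp : rk R = 2 ^ r := hE.er
  have hfin : (T'.biUnion fun v => SolX g PJ N b NJ su v).card * 2 ^ Q *
      rk R ^ Fintype.card J ≤
      2 ^ (ps J).card * 2 ^ (t * (t + 1) + t * e) * rk R ^ Fintype.card J := by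
    calc (T'.biUnion fun v => SolX g PJ N b NJ su v).card * 2 ^ Q * rk R ^ Fintype.card J
        = ((T'.biUnion fun v => SolX g PJ N b NJ su v).card * rk R ^ Fintype.card J) *
          2 ^ Q := by ring
      _ ≤ (T'.card * (2 ^ (ps J).card * (∏ j, bR g PJ R j) * rk R ^ (t + 1))) * 2 ^ Q :=
          Nat.mul_le_mul_right _ h3
      _ = (T'.card * 2 ^ Q) * (2 ^ (ps J).card * (∏ j, bR g PJ R j) * rk R ^ (t + 1)) := by ring
      _ ≤ ((∏ k, aR g J1 R k) * 2 ^ (if a + b' = r then 0 else Q)) *
          (2 ^ (ps J).card * (∏ j, bR g PJ R j) * rk R ^ (t + 1)) := Nat.mul_le_mul_right _ hT2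
      _ = 2 ^ (ps J).card * rk R ^ (t + 1) * (2 ^ (∑ k, ex r a b' (k ∈ J1 false) (k ∈ J1 true) +
          ∑ k, ex r a b' (k ∉ PJ false) (k ∉ PJ true) + (if a + b' = r then 0 else Q))) := by
          rw [haR, hbR, pow_add, pow_add]; ring
      _ ≤ 2 ^ (ps J).card * rk R ^ (t + 1) * 2 ^ (r * Fintype.card J + t * e) :=
          Nat.mul_le_mul_left _ (Nat.pow_le_pow_right (by norm_num) hexp)
      _ = 2 ^ (ps J).card * 2 ^ (r * (t + 1)) * (2 ^ (t * e) * rk R ^ Fintype.card J) := by
          rw [hrp, ← pow_mul, ← pow_mul, pow_add]; ring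
      _ ≤ 2 ^ (ps J).card * 2 ^ (t * (t + 1)) * (2 ^ (t * e) * rk R ^ Fintype.card J) := by
          refine Nat.mul_le_mul_right _ (Nat.mul_le_mul_left _ ?_)
          exact Nat.pow_le_pow_right (by norm_num) (Nat.mul_le_mul_right _ hE.rt)
      _ = _ := by rw [pow_add]; ring
  exact Nat.le_of_mul_le_mul_right hfin (pow_pos (rk_pos R) _)

/-- **few completions are not in general position** -/
theorem card_GPX (H : GhX g J1 PJ Sp Pc N b NJ fr x JR JS Q e) :
    (univ.filter fun σ : ps J → ZMod 2 =>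
      ¬ GP (J1 false ∪ J1 true) Sp Pc (fun l => pt (N l) (Pool.Agent.N916.GB.sx σ)) b).card *
        2 ^ Q ≤
      2 ^ (ps J).card * (2 ^ (∑ l, Fintype.card (U l)) * (Kg t * 2 ^ (t * (t + 1) + t * e))) := by
  have : Finite (Submodule (ZMod 2) (Fin t → ZMod 2)) :=
    Finite.of_injective (fun R : Submodule (ZMod 2) (Fin t → ZMod 2) => (R : Set (Fin t → ZMod 2)))
      SetLike.coe_injective
  have : Fintype (Submodule (ZMod 2) (Fin t → ZMod 2)) := Fintype.ofFinite _
  set B := univ.filter fun σ : ps J → ZMod 2 =>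
      ¬ GP (J1 false ∪ J1 true) Sp Pc (fun l => pt (N l) (Pool.Agent.N916.GB.sx σ)) b with hB
  set RR := univ.filter fun R : Submodule (ZMod 2) (Fin t → ZMod 2) =>
    R ≠ ⊥ ∧ ∀ y ∈ R, ∑ l, y l = 0 with hRR
  have hcov : B ⊆ RR.biUnion fun R => (univ : Finset (∀ l, U l → ZMod 2)).biUnion fun su =>
      ((TRX g J1 PJ N b R su).filter fun v => Submodule.span (ZMod 2) (Set.range v) = R).biUnion
        fun v => SolX g PJ N b NJ su v := by
    intro σ hσ
    rw [hB, mem_filter] at hσ
    obtain ⟨-, hσ⟩ := hσ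
    unfold GP at hσ
    push Not at hσ
    obtain ⟨s, hs, hsum, l₀, j₀, hne⟩ := hσ
    set su : ∀ l, U l → ZMod 2 := fun l u => s l (Sum.inl u) with hsu
    set v : J → Fin t → ZMod 2 := fun k l => s l (Sum.inr k) with hv
    have hmk : ∀ l, mkv su v l = s l := by
      intro l
      funext i
      rcases i with u | k <;> rfl
    have h0 : ∀ k l, k ∉ J1 (g l) → v k l = 0 := fun k l hk =>
      (hs l).1 (Sum.inr k) fun h => hk ((H.sp l k).1 h)
    have hH0 : ∀ k, ∑ l, v k l = 0 := by
      intro k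
      by_cases hk : k ∈ J1 false ∪ J1 true
      · exact hsum k hk
      · rw [mem_union, not_or] at hk
        refine sum_eq_zero fun l _ => h0 k l ?_
        cases g l
        · exact hk.1
        · exact hk.2
    have heq : ∀ j l, j ∈ PJ (g l) → (cc N b NJ su v j +
        ∑ k, Pool.Agent.N916.GB.sx σ k j • (v k + v j)) l = 0 := by
      intro j l hj
      rw [← eq_atX H.nj su v σ l j, hmk]
      exact (hs l).2 (Sum.inr j) ((H.pc l j).2 hj)
    set R := Submodule.span (ZMod 2) (Set.range v) with hR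
    have hvR : ∀ k, v k ∈ R := fun k => Submodule.subset_span (Set.mem_range_self k)
    have hRH : ∀ y ∈ R, ∑ l, y l = 0 := by
      intro y hy
      refine Submodule.span_induction (p := fun y _ => ∑ l, y l = 0) ?_ ?_ ?_ ?_ hy
      · rintro _ ⟨k, rfl⟩
        exact hH0 k
      · simp
      · intro y z _ _ h1 h2
        simp only [Pi.add_apply, sum_add_distrib, h1, h2, add_zero]
      · intro c y _ h1
        simp only [Pi.smul_apply, smul_eq_mul, ← mul_sum, h1, mul_zero]
    have hRne : R ≠ ⊥ := by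
      intro h
      have hv0 : ∀ k, v k = 0 := by
        intro k
        have := hvR k
        rw [h] at this
        exact (Submodule.mem_bot _).1 this
      have hw : ∃ u, su l₀ u ≠ 0 := by
        rcases j₀ with u | k
        · exact ⟨u, hne⟩
        · exact absurd (congrFun (hv0 k) l₀) hne
      obtain ⟨k, hk, hk2⟩ := H.nd l₀ (su l₀) hw
      apply hk2
      have h2 := heq k l₀ hk
      unfold cc aa at h2
      simp only [hv0, Pi.add_apply, Finset.sum_apply, Pi.smul_apply, Pi.zero_apply, smul_eq_mul,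
        mul_zero, add_zero, sum_const_zero] at h2
      exact h2
    rw [mem_biUnion]
    refine ⟨R, mem_filter.2 ⟨mem_univ _, hRne, hRH⟩, ?_⟩
    rw [mem_biUnion]
    refine ⟨su, mem_univ _, ?_⟩
    rw [mem_biUnion]
    refine ⟨v, ?_, ?_⟩
    · rw [mem_filter]
      refine ⟨?_, rfl⟩
      unfold TRX
      rw [mem_filter]
      refine ⟨mem_univ _, fun k => ?_, fun j => ?_⟩
      · rw [Submodule.mem_inf, mem_Vn]
        exact ⟨hvR k, fun l hl => h0 k l hl⟩
      · refine ⟨(∑ k, NJ k j • v k) + (∑ k, NJ j k) • v j +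
            ∑ k, Pool.Agent.N916.GB.sx σ k j • (v k + v j), ?_, fun l hl => ?_⟩
        · exact R.add_mem (R.add_mem (R.sum_mem fun k _ => R.smul_mem _ (hvR k))
            (R.smul_mem _ (hvR j))) (R.sum_mem fun k _ => R.smul_mem _ (R.add_mem (hvR k) (hvR j)))
        · have h3 := heq j l hl
          unfold cc at h3
          simp only [Pi.add_apply] at h3
          simp only [Pi.add_apply]
          have : ∀ a p q w : ZMod 2, a + p + q + w = 0 → a = p + q + w := by decide
          exact this _ _ _ _ h3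
    · unfold SolX
      rw [mem_filter]
      exact ⟨mem_univ _, heq⟩
  have hone : ∀ R ∈ RR, ((univ : Finset (∀ l, U l → ZMod 2)).biUnion fun su =>
      ((TRX g J1 PJ N b R su).filter fun v => Submodule.span (ZMod 2) (Set.range v) = R).biUnion
        fun v => SolX g PJ N b NJ su v).card * 2 ^ Q ≤
      2 ^ (ps J).card * (2 ^ (∑ l, Fintype.card (U l)) * 2 ^ (t * (t + 1) + t * e)) := by
    intro R hR
    rw [hRR, mem_filter] at hR
    obtain ⟨-, hRne, hRH⟩ := hR
    refine (Nat.mul_le_mul_right _ card_biUnion_le).trans ?_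
    rw [sum_mul]
    refine (sum_le_sum fun su _ => one_space H hRne hRH su).trans (le_of_eq ?_)
    rw [sum_const, smul_eq_mul, card_univ, Fintype.card_pi]
    have h6 : ∏ l, Fintype.card (U l → ZMod 2) = 2 ^ (∑ l, Fintype.card (U l)) := by
      rw [← prod_pow_eq_pow_sum]
      exact prod_congr rfl fun l _ => by rw [Fintype.card_fun, ZMod.card]
    rw [h6]
    ring
  refine (Nat.mul_le_mul_right _ ((card_le_card hcov).trans card_biUnion_le)).trans ?_
  rw [sum_mul]
  refine (sum_le_sum hone).trans ?_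
  rw [sum_const, smul_eq_mul]
  have h7 : RR.card ≤ Kg t := by
    unfold Kg
    rw [Nat.card_eq_fintype_card]
    exact card_le_univ _
  calc RR.card * (2 ^ (ps J).card * (2 ^ (∑ l, Fintype.card (U l)) * 2 ^ (t * (t + 1) + t * e))) ≤
      Kg t * (2 ^ (ps J).card * (2 ^ (∑ l, Fintype.card (U l)) * 2 ^ (t * (t + 1) + t * e))) :=
        Nat.mul_le_mul_right _ h7
    _ = _ := by ring

end

end Pool.Agent.L0h86.XF
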