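import Pool.Agent.L0h86.XF.Stm
import Pool.Agent.L0h2.P.GP

/-!
# Project XF: the statement of the joint law in a box (module BXX)
-/

set_option autoImplicit false
set_option linter.unusedVariables false

open scoped Classical

namespace Pool.Agent.L0h86.XF

open Finset
open Pool.Agent.Y703.CQ (nr sg c2)
open Pool.Agent.N916.GB (HB ps)
open Pool.Agent.L0h2.P (Kg)

/-- BXX: the joint law in a box; `τ f i` is the type of the primes of `C i` for the field `f`. -/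
def S_BXX : Prop := ∀ (t n : ℕ) (s : Fin t → Sy) (ι : Type) [Fintype ι] [LinearOrder ι]
  (S₀ : Finset ℕ) (τ : Bool → ι → ℕ) (C : ι → Finset ℕ)
  (x : Fin t → Fin n → ZMod 2) (fr : Fin n → Bool) (JR : Fin n → Finset ι) (JS : Finset ι)
  (X : ι → ℕ) (κ : ℝ) (m : Fin t → ℕ) (mm V Q e : ℕ) (pat : Fin t → Bool),
  (∀ l, m l ≤ mm) → 1 ≤ V → (∀ l, V ≤ m l) →
  (∀ l, (s l).d.t < 4) → (∀ l, RecA (s l).d.f (s l).d.A) →
  0 ≤ κ → (∀ i, (C i).card ≤ X i) → HB C X κ →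
  (∀ l, ∀ v ∈ (s l).W, PrO (s l).d.f v) → (∀ l, ∀ v ∈ S₀, PrF (s l).d.f v) →
  (∀ l, ∀ v ∈ S₀, some v ∉ (s l).W) →
  (∀ i, ∀ p ∈ C i, (∀ f, PrF f p) ∧ p ∉ S₀ ∧ (∀ l, some p ∉ (s l).W) ∧ ∀ f, ty f p = τ f i) →
  (∀ i l, i ≠ l → Disjoint (C i) (C l)) →
  (∀ l, kW (s l) + kd (s l).d.f S₀ + ((univ.filter fun i => τ (s l).d.f i = 3).card : ℤ) -
    ((univ.filter fun i => τ (s l).d.f i = 1).card : ℤ) = 2 * m l) →
  6 * mm + 3 * V ≤ (univ.filter fun i => τ false i = 0 ∧ τ true i = 0).card →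
  (∀ r, ∀ i ∈ JR r, τ (fr r) i = 2 ∧ ∀ q ∈ C i, ∀ l l', (s l).d.f = fr r → (s l').d.f = fr r →
    dg (s l) q + x l r = dg (s l') q + x l' r) →
  (∀ l l' : Fin t, l ≠ l' → (s l).d.f = (s l').d.f → ∃ r, fr r = (s l).d.f ∧ x l r ≠ x l' r) →
  (∀ r, Q ≤ (JR r).card) →
  (∀ i ∈ JS, τ false i = 2 ∧ τ true i = 0) → Q + e ≤ JS.card →
  (∀ l, (univ.filter fun i => τ (s l).d.f i = 3).card ≤
    (univ.filter fun i => τ (s l).d.f i = 1).card + e) →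
  V + (∑ l, (SW (s l) S₀).card + (Kg t + (t * (t + 1) + t * e))) ≤ Q →
  |(((Fintype.piFinset C).filter fun p => NdJ s S₀ (univ.image p) ∧
        PatS s pat (S₀ ∪ univ.image p)).card : ℝ) -
      amc pat * (((Fintype.piFinset C).filter fun p => NdJ s S₀ (univ.image p)).card : ℝ)| ≤
    (4 * t + 2) * (1 / 2 : ℝ) ^ V *
      (((Fintype.piFinset C).filter fun p => NdJ s S₀ (univ.image p)).card : ℝ) +
    2 * 2 ^ ((∑ l, (2 * (SW (s l) S₀).card + 1)) * Fintype.card ι +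
      (ps ι).card) * (κ * ∏ j, (X j : ℝ))

end Pool.Agent.L0h86.XF
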