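import Pool.Agent.L0h2.P.Stm
import Pool.Agent.L0h74.E3.Stm

/-!
# Project XF (helper86): the joint law of the twists of `X_0(49)` and of `X_0(36)`, statements

As in project P (helper2, `Pool/Agent/L0h2/P/Stm.lean`), but each system has its own quadratic field:
`f = false` is `ℚ(√-7)`, `f = true` is `ℚ(√-3)`. The primes are the elements of `Option ℕ`, `none` is
the additional prime (two, with a sign), of type `t`, `t < 4`. The varying part `S` of a system is the
set of the prime factors of `m`, `m` in a class prime to the modulus `u`, `84 ∣ u`.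
-/

set_option autoImplicit false
set_option linter.unusedVariables false

open scoped Classical

namespace Pool.Agent.L0h86.XF

open Finset
open Pool.Agent.Y703.CX (sm la jj XX eL zz kk)
open Pool.Agent.Y703.CQ (nr sg c2)
open Pool.Agent.N973.ND (m7 uu Gv)
open Pool.Agent.N916.GB (HB ps)
open Pool.Agent.L0h74.T3 (m3)
open Pool.Agent.L0h74.EV (n2 SE Cl)
open Pool.Agent.L0h74.EV.KEY (ph CC)
open Pool.Agent.L0h74.AP (Cp)
open Pool.Agent.L0h2.P (RK)

/-- one if the prime splits in the field -/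
def mF (f : Bool) (p : ℕ) : ℕ := if f = true then m3 p else m7 p

/-- the type of a prime: `0`: inert, `1` modulo `4`; `1`: inert, `3` modulo `4`; `2`: split, `1` modulo
`4`; `3`: split, `3` modulo `4` -/
def ty (f : Bool) (p : ℕ) : ℕ := 2 * mF f p + if p % 4 = 3 then 1 else 0

/-- the odd primes unramified in the field -/
def PrF (f : Bool) (p : ℕ) : Prop := p.Prime ∧ p ≠ 2 ∧ p ≠ (if f = true then 3 else 7)

/-- the data of a system -/
structure Dt where
  /-- the field -/
  f : Bool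
  /-- the type of the additional prime -/
  t : ℕ
  /-- the symbols of the odd primes -/
  A : ℕ → ℕ → ZMod 2
  /-- the symbol of the additional prime and a prime -/
  A2 : ℕ → ZMod 2
  /-- the diagonal -/
  b : ℕ → ZMod 2
  /-- the diagonal at the additional prime -/
  b2 : ZMod 2

/-- the type of a prime -/
def tyO (d : Dt) : Option ℕ → ℕ
  | none => d.t
  | some p => ty d.f p

/-- one if the prime splits -/
def mO (d : Dt) : Option ℕ → ℕ
  | none => d.t / 2
  | some p => mF d.f p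

/-- one if the prime is of type `1` or `3` -/
def uO (d : Dt) : Option ℕ → ZMod 2
  | none => if d.t % 2 = 1 then 1 else 0
  | some p => uu p

/-- the symbols -/
noncomputable def nO (d : Dt) : Option ℕ → Option ℕ → ZMod 2
  | none, none => 0
  | none, some p => n2 p + (if d.t % 2 = 1 then uu p else 0)
  | some p, none => n2 p
  | some p, some q => nr p q

/-- the form -/
noncomputable def eO (d : Dt) : Option ℕ → Option ℕ → ZMod 2
  | none, none => 0
  | none, some p => d.A2 p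
  | some p, none => d.A2 p
  | some p, some q => d.A p q + nr q p

/-- the diagonal -/
def bO (d : Dt) : Option ℕ → ZMod 2
  | none => d.b2
  | some p => d.b p

/-- the primes of a field, the additional prime -/
def PrO (f : Bool) : Option ℕ → Prop
  | none => True
  | some p => PrF f p

/-- the reciprocity law of the symbols -/
def RecA (f : Bool) (A : ℕ → ℕ → ZMod 2) : Prop := ∀ p q : ℕ, PrF f p → PrF f q → p ≠ q →
  mF f p = 1 → mF f q = 1 → A q p = A p q + uu p * uu q

section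
variable {V : Type} [Fintype V]

/-- the good systems attached to a family of primes -/
def GRO (d : Dt) (r : V → Option ℕ) : Prop :=
  Gv (univ.filter fun i => mO d (r i) = 1) (univ.filter fun i => tyO d (r i) = 2 ∨ tyO d (r i) = 1)
    (fun i j => nO d (r j) (r i)) (fun i j => if i = j then 0 else eO d (r i) (r j))
    (fun i => bO d (r i))

end

/-- the good sets -/
def GdO (d : Dt) (S : Finset (Option ℕ)) : Prop := GRO d fun i : S => (i : Option ℕ)

/-- a system: the symbols and the fixed part -/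
structure Sy where
  /-- the symbols -/
  d : Dt
  /-- the fixed part -/
  W : Finset (Option ℕ)

/-- all the primes of a system -/
noncomputable def SW (s : Sy) (S : Finset ℕ) : Finset (Option ℕ) := (S.image some) ∪ s.W

/-- the good sets -/
def GdS (s : Sy) (S : Finset ℕ) : Prop := GdO s.d (SW s S)

/-- the number of the primes of type `3` minus the number of the primes of type `1` -/
noncomputable def kd (f : Bool) (S : Finset ℕ) : ℤ :=
  ((S.filter fun p => ty f p = 3).card : ℤ) - ((S.filter fun p => ty f p = 1).card : ℤ)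

/-- the same for the fixed part -/
noncomputable def kW (s : Sy) : ℤ :=
  ((s.W.filter fun x => tyO s.d x = 3).card : ℤ) - ((s.W.filter fun x => tyO s.d x = 1).card : ℤ)

/-- the diagonal at a large prime, with the symbols of the fixed part -/
noncomputable def dg (s : Sy) (p : ℕ) : ZMod 2 := s.d.b p + ∑ v ∈ s.W, nO s.d v (some p)

/-- the labels of the large primes are not degenerate -/
def NdJ {t : ℕ} (s : Fin t → Sy) (S₀ S₁ : Finset ℕ) : Prop :=
  ∀ (l : Fin t) (w : Option ℕ → ZMod 2), (∃ v ∈ SW (s l) S₀, w v ≠ 0) →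
    ∃ p ∈ S₁, ty (s l).d.f p = 2 ∧ ∑ v ∈ SW (s l) S₀, w v * nO (s l).d (some p) v ≠ 0

/-- the pattern of the good systems -/
def PatS {t : ℕ} (s : Fin t → Sy) (β : Fin t → Bool) (S : Finset ℕ) : Prop :=
  ∀ l, (GdS (s l) S ↔ β l = true)

/-- the limit of a pattern, both `kd` being large -/
noncomputable def amc {t : ℕ} (β : Fin t → Bool) : ℝ := ∏ l, if β l = true then c2 else 1 - c2

/-- the limit of a pattern: `f l` is the field of the system `l` -/
noncomputable def limX {t : ℕ} (f β : Fin t → Bool) : ℝ :=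
  ∏ g : Bool, (1 / 2 * (∏ l ∈ univ.filter (fun l => f l = g), if β l = true then c2 else 1 - c2) +
    1 / 2 * (if ∀ l, f l = g → β l = false then 1 else 0))

/-- the hypotheses on the systems: the class `a` modulo `u`; the classes `cl r` modulo `7 u` of the
primes which separate the systems of the field `fr r`, their values `x l r`; a class `cs` of primes
which split in `ℚ(√-7)` and not in `ℚ(√-3)` -/
structure Hy {t n : ℕ} (s : Fin t → Sy) (u a : ℕ) (cl : Fin n → ℕ) (fr : Fin n → Bool)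
    (x : Fin t → Fin n → ZMod 2) (cs : ℕ) : Prop where
  cp : Cp u a
  dv : 84 ∣ u
  t4 : ∀ l, (s l).d.t < 4
  recA : ∀ l, RecA (s l).d.f (s l).d.A
  W : ∀ l, ∀ v ∈ (s l).W, PrO (s l).d.f v
  Wu : ∀ l p, some p ∈ (s l).W → p ∣ u
  par : ∀ l S, Cl u a S → (kW (s l) + kd (s l).d.f S) % 2 = 0
  cls : ∀ r p, p.Prime → p % (7 * u) = cl r →
    ty (fr r) p = 2 ∧ ∀ l l', (s l).d.f = fr r → (s l').d.f = fr r →
      dg (s l) p + x l r = dg (s l') p + x l' r
  clc : ∀ r, cl r < 7 * u ∧ (cl r).Coprime (7 * u)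
  sep : ∀ l l', l ≠ l' → (s l).d.f = (s l').d.f → ∃ r, fr r = (s l).d.f ∧ x l r ≠ x l' r
  cst : ∀ p, p.Prime → p % (7 * u) = cs → ty false p = 2 ∧ ty true p = 0
  csc : cs < 7 * u ∧ cs.Coprime (7 * u)

/-! ### The sum over the boxes -/

/-- `kd` of a key -/
noncomputable def kJ (f : Bool) (S₀ : Finset ℕ) (J : Finset (ℕ × ℕ)) : ℤ :=
  kd f S₀ + ((J.filter fun e => ty f e.2 = 3).card : ℤ) - ((J.filter fun e => ty f e.2 = 1).card : ℤ)

/-- the condition on the key, for the fields in `F` -/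
def KQ {n : ℕ} (F : Finset Bool) (cl : Fin n → ℕ) (cs V V' M : ℕ) (S₀ : Finset ℕ)
    (J : Finset (ℕ × ℕ)) : Prop :=
  ∀ f ∈ F, (V : ℤ) ≤ kJ f S₀ J ∧
    3 * kJ f S₀ J + (V' : ℤ) ≤
      ((J.filter fun e => ty false e.2 = 0 ∧ ty true e.2 = 0).card : ℤ) ∧
    (∀ r, (M : ℤ) * kJ f S₀ J + (M : ℤ) * (S₀.card : ℤ) + (V' : ℤ) ≤
      ((J.filter fun e => e.2 = cl r).card : ℤ)) ∧
    (M : ℤ) * kJ f S₀ J + (M : ℤ) * (S₀.card : ℤ) + (V' : ℤ) ≤
      ((J.filter fun e => e.2 = cs).card : ℤ)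

/-- KYX: the joint law on the regular sets, for any condition `Kq` on the keys which implies `KQ` -/
def S_KYX : Prop := ∃ C : ℝ, 1 ≤ C ∧ ∀ (t n : ℕ) (s : Fin t → Sy) (u a : ℕ) (cl : Fin n → ℕ)
  (fr : Fin n → Bool) (x : Fin t → Fin n → ZMod 2) (cs : ℕ), Hy s u a cl fr x cs →
  ∀ F : Finset Bool, F.Nonempty → (∀ l, (s l).d.f ∈ F) → ∀ (V₀ : ℕ), ∃ V V' M K : ℕ,
  ∀ (Kq : Finset ℕ → Finset (ℕ × ℕ) → Prop), (∀ S₀ J, Kq S₀ J → KQ F cl cs V V' M S₀ J) →
  ∀ (β : Fin t → Bool) (X z H k N : ℕ) (κ : ℝ), 1 ≤ X → 1 ≤ H → u ≤ z → 0 ≤ κ →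
  C ≤ κ ^ 12 * z → (H : ℝ) * Real.log X < N →
  |(((RK u a X z H k Kq).filter fun S =>
        NdJ s (sm z S) (la z S) ∧ PatS s β S).card : ℝ) -
      amc β * (((RK u a X z H k Kq).filter fun S => NdJ s (sm z S) (la z S)).card : ℝ)| ≤
    (4 * t + 2) * (1 / 2 : ℝ) ^ V₀ * ((RK u a X z H k Kq).card : ℝ) +
    (9 * (u * N) + 9 : ℝ) ^ k * (3 ^ (K * (k ^ 2 + 1)) * κ) * (X * (1 + Real.log X))

/-! ### The exceptional sets -/

/-- the sets of odd primes unramified in the field, with product at most `X` -/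
noncomputable def SAF (f : Bool) (X : ℕ) : Finset (Finset ℕ) :=
  (range (X + 1)).powerset.filter fun S => (∀ p ∈ S, PrF f p) ∧ ∏ p ∈ S, p ≤ X

/-- FEWX: few sets have few large primes in a class compared with `kd` and the number of the small
primes. -/
def S_FEWX : Prop := ∀ (f : Bool) (q c M V : ℕ), c < q → c.Coprime q → ∀ ε : ℝ, 0 < ε →
  ∃ X₀ : ℕ, ∀ X : ℕ, X₀ ≤ X →
  (((Pool.Agent.N973.ND.SA X).filter fun S =>
    (((la (zz X) S).filter fun p => p % q = c).card : ℤ) <
    (M : ℤ) * kd f S + (M : ℤ) * ((sm (zz X) S).card : ℤ) + (V : ℤ)).card : ℝ) ≤ ε * X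

/-- the labels of the large primes with respect to the small ones and two are not degenerate -/
def NdE (f : Bool) (S₀ S₁ : Finset ℕ) : Prop :=
  ∀ (w : ℕ → ZMod 2) (c : ZMod 2), ((∃ u ∈ S₀, w u ≠ 0) ∨ c ≠ 0) →
    ∃ p ∈ S₁, ty f p = 2 ∧ ∑ u ∈ S₀, w u * nr p u + c * n2 p ≠ 0

/-- BADX: few sets have degenerate labels (both cases are known: EV.BAD, E3.BAD). -/
def S_BADX : Prop := ∀ (f : Bool) (ε : ℝ), 0 < ε → ∃ X₀ : ℕ, ∀ X : ℕ, X₀ ≤ X →
  (((SAF f X).filter fun S => S.card ≤ kk X ∧ ¬ NdE f (sm (zz X) S) (la (zz X) S)).card : ℝ) ≤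
    ε * X

/-- NEGX: for a good system `kd` is not negative. -/
def S_NEGX : Prop := ∀ (s : Sy) (S : Finset ℕ), s.d.t < 4 → (∀ v ∈ S, some v ∉ s.W) → GdS s S →
  0 ≤ kW s + kd s.d.f S

/-! ### The quarter law -/

/-- QL: the two `kd` are independent: each of the four quadrants has a quarter of the class. -/
def S_QL : Prop := ∀ u a : ℕ, Cp u a → 84 ∣ u → ∀ (M₇ M₃ : ℤ) (ε : ℝ), 0 < ε → ∃ X₀ : ℕ,
  ∀ X : ℕ, X₀ ≤ X →
  |(((SE u a X).filter fun S => M₇ ≤ kd false S ∧ M₃ ≤ kd true S).card : ℝ) -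
      1 / 4 * ((SE u a X).card : ℝ)| ≤ ε * X ∧
  |(((SE u a X).filter fun S => M₇ ≤ kd false S).card : ℝ) -
      1 / 2 * ((SE u a X).card : ℝ)| ≤ ε * X ∧
  |(((SE u a X).filter fun S => M₃ ≤ kd true S).card : ℝ) -
      1 / 2 * ((SE u a X).card : ℝ)| ≤ ε * X

/-! ### The law in a class -/

/-- DJX: the joint law in a class -/
def S_DJX : Prop := ∀ (t n : ℕ) (s : Fin t → Sy) (u a : ℕ) (cl : Fin n → ℕ) (fr : Fin n → Bool)
  (x : Fin t → Fin n → ZMod 2) (cs : ℕ), Hy s u a cl fr x cs → ∀ β : Fin t → Bool,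
  ∀ ε : ℝ, 0 < ε → ∀ᶠ X : ℕ in Filter.atTop,
    |(((SE u a X).filter (PatS s β)).card : ℝ) -
      limX (fun l => (s l).d.f) β * ((SE u a X).card : ℝ)| ≤ ε * X

/-! ### The separating classes for the prime `3` -/

/-- CLS3: the class of the primes `q ≡ 1` modulo `4`, split in `ℚ(√-3)`, for which exactly one of the
primes of `2 u` is not a square (for `ℚ(√-7)` see `P.S_CLS`) -/
def S_CLS3 : Prop := ∀ u : ℕ, 168 ∣ u → 0 < u → ∀ r : ℕ, (r = 2 ∨ (PrF true r ∧ r ∣ u)) →
  ∃ c : ℕ, c < 7 * u ∧ c.Coprime (7 * u) ∧ ∀ q, q.Prime → q % (7 * u) = c →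
    ty true q = 2 ∧ (∀ r', PrF true r' → r' ∣ u → nr r' q = if r' = r then 1 else 0) ∧
      n2 q = if r = 2 then 1 else 0

/-- CSX: a class of primes which split in `ℚ(√-7)` and not in `ℚ(√-3)` -/
def S_CSX : Prop := ∀ u : ℕ, 84 ∣ u → 0 < u →
  ∃ c : ℕ, c < 7 * u ∧ c.Coprime (7 * u) ∧ ∀ q, q.Prime → q % (7 * u) = c →
    ty false q = 2 ∧ ty true q = 0

end Pool.Agent.L0h86.XF
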