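import Pool.Agent.L0h86.XF.LAWX
import Pool.Agent.L0h2.P.NUM
import Pool.Agent.L0h2.P.CLS
import Pool.Agent.L0h61.XF.BAD
import Pool.Agent.L0h61.XF.CLS
import Pool.Agent.L0h61.XF.FEW
import Pool.Agent.L0h61.XF.NEG
import Pool.Agent.L0h19.XF.DenX
import Pool.Agent.L0h74.QL.Fin
import Pool.Agent.L0h75.IS.Sha7
import Pool.Agent.L0h1.CM.T49
import Pool.Agent.L0h1.CM.T36

/-!
# Project XF (helper86): the joint law of the twists of `X_0(49)` and `X_0(36)`
-/

set_option autoImplicit false
set_option linter.unusedSectionVars false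
set_option linter.unusedVariables false
set_option maxHeartbeats 1000000

open scoped Classical

namespace Pool.Agent.L0h86.XF

open Finset Filter
open scoped Topology
open Pool.Agent.Y703.CQ (c2)
open Pool.Agent.L0h74.AP (HtFn ClassFn cnt classFn_of)
open Pool.Agent.L0h1.CM (TT2 S7 tt49 tt36)
open Pool.Agent.L0h4.T6 (J)
open Pool.Agent.L0h74.E3 (Cr)
open Pool.Agent.L0h1.EV (TT)

/-- the law in a class from the law on the regular sets -/
theorem dj (hK : S_KYX) : S_DJX :=
  Den.t_DENX hK Pool.Agent.L0h61.XF.t_FEWX Pool.Agent.L0h61.XF.t_BADX Pool.Agent.L0h61.XF.t_NEGX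
    Pool.Agent.L0h74.QL.t_QL

/-- the twist by `n` of `X_0(49)` (`f = false`) or of `X_0(36)` (`f = true`) -/
noncomputable def Cv (f : Bool) (n : ℤ) : WeierstrassCurve ℚ :=
  if f = true then J ((n : ℚ) ^ 3) else S7 n

/-- **the criterion** -/
theorem tt_cv {f : Bool} {n : ℤ} (h : RP f n) : TT2 (Cv f n) ↔ Good f (DnF f n) := by
  cases f
  · exact tt49 (fun n hn h x hx => Pool.Agent.L0h75.IS.sha_seven_two hn h x hx) h
  · exact tt36 h

/-! ### the families -/

/-- the residue classes -/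
theorem cf_mod {u q : ℕ} (hu0 : 0 < u) (hq : q ∣ u) (r : ℤ) :
    ClassFn u fun e => e ≡ r [ZMOD (q : ℤ)] := by
  refine classFn_of hu0 ?_
  intro s g m m' hs hg hgu hm hm' hc hc' hmm hT
  have h1 : (m : ℤ) ≡ (m' : ℤ) [ZMOD (q : ℤ)] := by
    have h2 : m ≡ m' [MOD q] := Nat.ModEq.of_dvd hq hmm
    exact (Int.natCast_modEq_iff).2 h2
  have h3 : (s * g * m : ℤ) ≡ (s * g * m' : ℤ) [ZMOD (q : ℤ)] := Int.ModEq.mul_left _ h1
  exact h3.symm.trans hT

/-- the sign -/
theorem cf_sgn {u : ℕ} (hu0 : 0 < u) (σ : Set ℤ) : ClassFn u fun e => e.sign ∈ σ := by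
  refine classFn_of hu0 ?_
  intro s g m m' hs hg hgu hm hm' hc hc' hmm hT
  have hg' : (0 : ℤ) < g := by exact_mod_cast hg
  have hm0 : (0 : ℤ) < m := by exact_mod_cast hm
  have hm0' : (0 : ℤ) < m' := by exact_mod_cast hm'
  have e1 : ∀ k : ℤ, 0 < k → (s * g * k : ℤ).sign = s.sign := by
    intro k hk
    rw [Int.sign_mul, Int.sign_mul, Int.sign_eq_one_of_pos hg', Int.sign_eq_one_of_pos hk,
      mul_one, mul_one]
  rw [e1 _ hm0] at hT
  show (s * g * m' : ℤ).sign ∈ σ
  rw [e1 _ hm0']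
  exact hT

theorem cf_root {u : ℕ} (hu0 : 0 < u) (h84 : 84 ∣ u) (f : Bool) {d : ℤ} (hd0 : d ≠ 0)
    (hd : ∀ p, p.Prime → p ∣ d.natAbs → p ∣ u) : ClassFn u fun e => RP f (e * d) := by
  cases f
  · exact Pool.Agent.L0h74.AP.classFn_root hu0 ((by norm_num : 7 ∣ 84).trans h84) hd0
  · exact Pool.Agent.L0h74.E3.classFn_root hu0 ((by norm_num : 12 ∣ 84).trans h84) hd0 hd

/-- the family of the `e`: all root numbers are one; a residue class; a condition on the sign -/
def Fm {k : ℕ} (f : Fin k → Bool) (d : Fin k → ℤ) (q : ℕ) (r : ℤ) (σ : Set ℤ) (e : ℤ) : Prop :=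
  (∀ l, RP (f l) (e * d l)) ∧ e ≡ r [ZMOD (q : ℤ)] ∧ e.sign ∈ σ

theorem cnt_iff (N : ℤ → ℕ) {T T' : ℤ → Prop} (h : ∀ e, T e ↔ T' e) (X : ℕ) :
    cnt N T X = cnt N T' X := by
  have : T = T' := funext fun e => propext (h e)
  rw [this]

theorem law_fam (hDJ : S_DJX) (hC : ∀ f, S_CEL f) {k : ℕ} (f : Fin k → Bool) (d : Fin k → ℤ)
    (hd0 : ∀ l, d l ≠ 0)
    (hinj : ∀ l l', f l = f l' → DnF (f l) (d l) = DnF (f l) (d l') → l = l')
    {q : ℕ} (hq : 0 < q) (r : ℤ) (σ : Set ℤ) {e₀ : ℤ} (he₀ : Squarefree e₀)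
    (hT₀ : Fm f d q r σ e₀) (β : Fin k → Bool) :
    Tendsto (fun X : ℕ =>
      ((cnt Int.natAbs (fun e => Fm f d q r σ e ∧
        ∀ l, (TT2 (Cv (f l) (e * d l)) ↔ β l = true)) X : ℕ) : ℝ) /
      ((cnt Int.natAbs (Fm f d q r σ) X : ℕ) : ℝ)) atTop (𝓝 (limX f β)) := by
  set u : ℕ := 168 * (q * ∏ l, (d l).natAbs) with hu
  have hP0 : 0 < ∏ l, (d l).natAbs := Finset.prod_pos fun l _ => Int.natAbs_pos.2 (hd0 l)
  have hu0 : 0 < u := by positivity
  have h168 : 168 ∣ u := Dvd.intro _ rfl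
  have h84 : 84 ∣ u := (by norm_num : 84 ∣ 168).trans h168
  have hqu : q ∣ u := Dvd.dvd.mul_left (Dvd.intro _ rfl) _
  have hdu : ∀ l p, p.Prime → p ∣ (d l).natAbs → p ∣ u := fun l p _ hp =>
    Dvd.dvd.mul_left (Dvd.dvd.mul_left (hp.trans (Finset.dvd_prod_of_mem
      (fun l => (d l).natAbs) (Finset.mem_univ l))) _) _
  have hT : ClassFn u (Fm f d q r σ) :=
    (ClassFn.all fun l => cf_root hu0 h84 (f l) (hd0 l) (hdu l)).and
      ((cf_mod hu0 hqu r).and (cf_sgn hu0 σ))
  have key := mainX hDJ Pool.Agent.L0h2.P.t_CLS Pool.Agent.L0h61.XF.t_CLS3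
    Pool.Agent.L0h61.XF.t_CSX hC h168 hu0 f d hd0 hdu hinj (Pool.Agent.L0h2.P.ht_natAbs u) hT
    (fun e he l _ => he.1 l) he₀ hT₀ β
  refine key.congr fun X => ?_
  rw [cnt_iff Int.natAbs (T := fun e => Fm f d q r σ e ∧ PatX f (fun l => DnF (f l) (e * d l)) β)
    (T' := fun e => Fm f d q r σ e ∧ ∀ l, (TT2 (Cv (f l) (e * d l)) ↔ β l = true)) (fun e => ?_) X]
  refine and_congr_right fun he => forall_congr' fun l => ?_
  rw [tt_cv (he.1 l)]

/-! ### two families -/

/-- the law of one family -/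
noncomputable def L1 {s : ℕ} (b : Fin s → Bool) : ℝ :=
  (∏ i, if b i = true then c2 else 1 - c2) / 2 + if ∀ i, b i = false then 1 / 2 else 0

theorem limX_append {s t : ℕ} (b : Fin s → Bool) (b' : Fin t → Bool) :
    limX (Fin.append (fun _ : Fin s => false) (fun _ : Fin t => true)) (Fin.append b b') =
      L1 b * L1 b' := by
  unfold limX
  rw [Fintype.prod_bool]
  have h1 : ∀ g : Bool, (∏ l ∈ univ.filter (fun l => Fin.append (fun _ : Fin s => false)
      (fun _ : Fin t => true) l = g), if Fin.append b b' l = true then c2 else 1 - c2) =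
      (∏ i : Fin s, if false = g then (if b i = true then c2 else 1 - c2) else 1) *
      (∏ i : Fin t, if true = g then (if b' i = true then c2 else 1 - c2) else 1) := by
    intro g
    rw [Finset.prod_filter, Fin.prod_univ_add]
    simp only [Fin.append_left, Fin.append_right]
  have h2 : ∀ g : Bool, (∀ l, Fin.append (fun _ : Fin s => false) (fun _ : Fin t => true) l = g →
      Fin.append b b' l = false) ↔
      (∀ i : Fin s, false = g → b i = false) ∧ (∀ i : Fin t, true = g → b' i = false) := by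
    intro g
    constructor
    · intro h
      refine ⟨fun i hi => ?_, fun i hi => ?_⟩
      · have := h (Fin.castAdd t i)
        simp only [Fin.append_left] at this
        exact this hi
      · have := h (Fin.natAdd s i)
        simp only [Fin.append_right] at this
        exact this hi
    · rintro ⟨h3, h4⟩ l
      refine Fin.addCases (fun i => ?_) (fun i => ?_) l
      · simp only [Fin.append_left]
        exact h3 i
      · simp only [Fin.append_right]
        exact h4 i
  rw [h1, h1]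
  simp only [h2]
  unfold L1
  simp only [reduceCtorEq, if_true, if_false, Finset.prod_const_one, one_mul, mul_one,
    false_implies, forall_const, true_and, and_true, implies_true]
  split_ifs <;> ring

/-- the two families -/
def F2 {s t : ℕ} (d : Fin s → ℤ) (d' : Fin t → ℤ) (q : ℕ) (r : ℤ) (σ : Set ℤ) (e : ℤ) : Prop :=
  ((∀ i, RP false (e * d i)) ∧ (∀ i, RP true (e * d' i))) ∧ e ≡ r [ZMOD (q : ℤ)] ∧ e.sign ∈ σ

theorem F2_iff {s t : ℕ} (d : Fin s → ℤ) (d' : Fin t → ℤ) (q : ℕ) (r : ℤ) (σ : Set ℤ) (e : ℤ) :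
    Fm (Fin.append (fun _ : Fin s => false) (fun _ : Fin t => true)) (Fin.append d d') q r σ e ↔
      F2 d d' q r σ e := by
  unfold Fm F2
  refine and_congr_left fun _ => ?_
  constructor
  · intro h
    refine ⟨fun i => ?_, fun i => ?_⟩
    · have := h (Fin.castAdd t i)
      rwa [Fin.append_left, Fin.append_left] at this
    · have := h (Fin.natAdd s i)
      rwa [Fin.append_right, Fin.append_right] at this
  · rintro ⟨h1, h2⟩ l
    refine Fin.addCases (fun i => ?_) (fun i => ?_) l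
    · rw [Fin.append_left, Fin.append_left]
      exact h1 i
    · rw [Fin.append_right, Fin.append_right]
      exact h2 i

/-- **the joint law of two families** -/
theorem law2 (hDJ : S_DJX) (hC : ∀ f, S_CEL f) {s t : ℕ} (d : Fin s → ℤ) (d' : Fin t → ℤ)
    (hd0 : ∀ i, d i ≠ 0) (hd0' : ∀ i, d' i ≠ 0)
    (hinj : Function.Injective fun i => DnF false (d i))
    (hinj' : Function.Injective fun i => DnF true (d' i))
    {q : ℕ} (hq : 0 < q) (r : ℤ) (σ : Set ℤ) {e₀ : ℤ} (he₀ : Squarefree e₀)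
    (hT₀ : F2 d d' q r σ e₀) (b : Fin s → Bool) (b' : Fin t → Bool) :
    Tendsto (fun X : ℕ =>
      ((cnt Int.natAbs (fun e => F2 d d' q r σ e ∧
        (∀ i, (TT2 (Cv false (e * d i)) ↔ b i = true)) ∧
        (∀ i, (TT2 (Cv true (e * d' i)) ↔ b' i = true))) X : ℕ) : ℝ) /
      ((cnt Int.natAbs (F2 d d' q r σ) X : ℕ) : ℝ)) atTop (𝓝 (L1 b * L1 b')) := by
  rw [← limX_append]
  refine (law_fam hDJ hC (Fin.append (fun _ : Fin s => false) (fun _ : Fin t => true))
    (Fin.append d d') ?_ ?_ hq r σ he₀ ((F2_iff d d' q r σ e₀).2 hT₀) (Fin.append b b')).congr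
    fun X => ?_
  · intro l
    refine Fin.addCases (fun i => ?_) (fun i => ?_) l
    · rw [Fin.append_left]
      exact hd0 i
    · rw [Fin.append_right]
      exact hd0' i
  · intro l l'
    refine Fin.addCases (fun i => ?_) (fun i => ?_) l <;>
      refine Fin.addCases (fun j => ?_) (fun j => ?_) l'
    · simp only [Fin.append_left, true_implies]
      intro h
      rw [hinj h]
    · simp only [Fin.append_left, Fin.append_right]
      intro h
      exact absurd h (by decide)
    · simp only [Fin.append_left, Fin.append_right]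
      intro h
      exact absurd h (by decide)
    · simp only [Fin.append_right, true_implies]
      intro h
      rw [hinj' h]
  · rw [cnt_iff Int.natAbs (F2_iff d d' q r σ) X, cnt_iff Int.natAbs (T' := fun e =>
      F2 d d' q r σ e ∧ (∀ i, (TT2 (Cv false (e * d i)) ↔ b i = true)) ∧
        (∀ i, (TT2 (Cv true (e * d' i)) ↔ b' i = true))) (fun e => ?_) X]
    rw [F2_iff]
    refine and_congr_right fun _ => ?_
    constructor
    · intro h
      refine ⟨fun i => ?_, fun i => ?_⟩
      · have := h (Fin.castAdd t i)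
        simpa only [Fin.append_left] using this
      · have := h (Fin.natAdd s i)
        simpa only [Fin.append_right] using this
    · rintro ⟨h1, h2⟩ l
      refine Fin.addCases (fun i => ?_) (fun i => ?_) l
      · simp only [Fin.append_left]
        exact h1 i
      · simp only [Fin.append_right]
        exact h2 i

end Pool.Agent.L0h86.XF
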