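import Pool.Agent.L0h86.XF.StmL
import Pool.Agent.L0h2.P.LAW

/-!
# Project XF (helper86): the joint law for both fields
-/

set_option autoImplicit false
set_option linter.unusedSectionVars false
set_option linter.unusedVariables false
set_option maxHeartbeats 1000000

open scoped Classical

namespace Pool.Agent.L0h86.XF

open Finset Filter
open scoped Topology
open Pool.Agent.Y703.CQ (c2 nr)
open Pool.Agent.L0h74.EV (n2 Cl SE)
open Pool.Agent.L0h74.AP (Cp Cg GS GSg HtFn ClassFn cnt)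
open Pool.Agent.L0h2.P (S_CLS GS_card)

/-- the odd part of a square-free number -/
theorem od_facts {g : ℕ} (hg : Squarefree g) : Squarefree (od g) ∧ (od g) % 2 = 1 ∧
    (g % 2 = 1 → g = od g) ∧ (g % 2 = 0 → g = 2 * od g) := Pool.Agent.L0h2.P.od_facts hg

theorem dvd_od {g r : ℕ} (hg : Squarefree g) (hr : r.Prime) (h2 : r ≠ 2) : r ∣ od g ↔ r ∣ g :=
  Pool.Agent.L0h2.P.dvd_od hg hr h2

/-- the ramified prime of the field -/
def q (f : Bool) : ℕ := if f = true then 3 else 7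

theorem q_prime (f : Bool) : (q f).Prime := by
  cases f <;> simp [q] <;> norm_num

theorem q_ne (f : Bool) : q f ≠ 2 := by
  cases f <;> simp [q]

theorem q_dvd (f : Bool) {u : ℕ} (h : 168 ∣ u) : q f ∣ u := by
  refine Dvd.dvd.trans ?_ h
  cases f <;> simp [q] <;> norm_num

/-- a prime in a class prime to the modulus does not divide the modulus -/
theorem ne_of_cls {m c p r : ℕ} (hc : c.Coprime m) (hp : p % m = c) (hr : r.Prime) (hrm : r ∣ m) :
    p ≠ r := by
  rintro rfl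
  have h1 : p ∣ c := by
    rw [← hp]
    exact (Nat.dvd_mod_iff hrm).2 dvd_rfl
  have h2 := Nat.dvd_gcd h1 hrm
  rw [hc] at h2
  exact hr.one_lt.ne' (Nat.dvd_one.1 h2)

/-- the separating classes of both fields -/
theorem cls_of (h7 : S_CLS) (h3 : S_CLS3) (f : Bool) {u : ℕ} (h168 : 168 ∣ u) (hu : 0 < u) (r : ℕ)
    (hr : r = 2 ∨ (PrF f r ∧ r ∣ u)) :
    ∃ c : ℕ, c < 7 * u ∧ c.Coprime (7 * u) ∧ ∀ p, p.Prime → p % (7 * u) = c →
      ty f p = 2 ∧ (∀ r', PrF f r' → r' ∣ u → nr r' p = if r' = r then 1 else 0) ∧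
        n2 p = if r = 2 then 1 else 0 := by
  cases f with
  | true => exact h3 u h168 hu r hr
  | false =>
    obtain ⟨c, h1, h2, h4⟩ := h7 u ((by norm_num : 56 ∣ 168).trans h168) hu r hr
    refine ⟨c, h1, h2, fun p hp hpc => ?_⟩
    exact h4 p ⟨hp, ne_of_cls h2 hpc Nat.prime_two
      (Dvd.dvd.mul_left ((by norm_num : 2 ∣ 168).trans h168) 7),
      ne_of_cls h2 hpc (by norm_num : Nat.Prime 7) (Nat.dvd_mul_right 7 u)⟩ hpc

/-- **The systems of the numbers `g l * m` satisfy the hypotheses.** -/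
theorem hyX (h7 : S_CLS) (h3 : S_CLS3) (hcs : S_CSX) {u a : ℕ} (hc : Cp u a) (h168 : 168 ∣ u)
    {t : ℕ} (f : Fin t → Bool) (g : Fin t → ℕ) (E : Bool → ℕ → ZMod 2) (s : Fin t → Sy)
    (hs : ∀ l, SysOK (f l) (E (f l)) (s l) (g l) u a)
    (hsq : ∀ l, Squarefree (g l)) (hpr : ∀ l, ¬ q (f l) ∣ g l)
    (hu : ∀ l p, p.Prime → p ∣ g l → p ∣ u)
    (hinj : ∀ l l', f l = f l' → g l = g l' → l = l') :
    ∃ (n : ℕ) (cl : Fin n → ℕ) (fr : Fin n → Bool) (x : Fin t → Fin n → ZMod 2) (cs : ℕ),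
      Hy s u a cl fr x cs := by
  have h84 : 84 ∣ u := (by norm_num : 84 ∣ 168).trans h168
  set Ps : Bool → Finset ℕ := fun b => u.primeFactors.filter (fun p => p ≠ q b) with hPs
  have hP : ∀ (i : Σ b : Bool, (Ps b : Finset ℕ)), (i.2 : ℕ).Prime ∧ (i.2 : ℕ) ∣ u ∧
      (i.2 : ℕ) ≠ q i.1 := by
    intro i
    have h1 := mem_filter.1 i.2.2
    exact ⟨Nat.prime_of_mem_primeFactors h1.1, Nat.dvd_of_mem_primeFactors h1.1, h1.2⟩
  have hex : ∀ (i : Σ b : Bool, (Ps b : Finset ℕ)), ∃ c : ℕ, c < 7 * u ∧ c.Coprime (7 * u) ∧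
      ∀ p, p.Prime → p % (7 * u) = c →
        ty i.1 p = 2 ∧ (∀ r', PrF i.1 r' → r' ∣ u → nr r' p = if r' = (i.2 : ℕ) then 1 else 0) ∧
          n2 p = if (i.2 : ℕ) = 2 then 1 else 0 := by
    intro i
    obtain ⟨p1, p2, p3⟩ := hP i
    refine cls_of h7 h3 i.1 h168 hc.pos i.2 ?_
    by_cases hr : (i.2 : ℕ) = 2
    · exact Or.inl hr
    · exact Or.inr ⟨⟨p1, hr, p3⟩, p2⟩
  choose cc hcc using hex
  obtain ⟨cs, hs1, hs2, hs3⟩ := hcs u h84 hc.pos
  set e := (Fintype.equivFin (Σ b : Bool, (Ps b : Finset ℕ))).symm with he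
  refine ⟨_, fun i => cc (e i), fun i => (e i).1,
    fun l i => if (((e i).2 : _) : ℕ) ∣ g l then 1 else 0, cs, ?_⟩
  refine ⟨hc, h84, fun l => (hs l).t4, fun l => ?_, fun l => ?_, fun l => (hs l).Wu, fun l S hS => ?_,
    ?_, fun i => ?_, ?_, fun p hp hpc => hs3 p hp hpc, ⟨hs1, hs2⟩⟩
  · rw [(hs l).fd]
    exact (hs l).recA
  · rw [(hs l).fd]
    exact (hs l).W
  · rw [(hs l).fd]
    exact (hs l).par S hS
  · intro i p hp hpc
    obtain ⟨h1, h2, h3'⟩ := hcc (e i)
    obtain ⟨k1, k2, k3⟩ := h3' p hp hpc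
    refine ⟨k1, ?_⟩
    have key : ∀ l, (s l).d.f = (e i).1 →
        dg (s l) p + (if (((e i).2 : _) : ℕ) ∣ g l then 1 else 0) = E (e i).1 p := by
      intro l hl
      rw [(hs l).fd] at hl
      rw [(hs l).dgq p (by rw [hl]; exact k1), hl]
      obtain ⟨o1, o2, o3, o4⟩ := od_facts (hsq l)
      obtain ⟨p1, p2, p3⟩ := hP (e i)
      have hPrr : ∀ r ∈ (od (g l)).primeFactors, PrF (e i).1 r ∧ r ∣ u := by
        intro r hr
        have r1 := Nat.prime_of_mem_primeFactors hr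
        have r2 := Nat.dvd_of_mem_primeFactors hr
        have r3 : r ≠ 2 := by
          rintro rfl
          omega
        have r4 := (dvd_od (hsq l) r1 r3).1 r2
        refine ⟨⟨r1, r3, ?_⟩, hu l r r1 r4⟩
        intro h'
        apply hpr l
        rw [hl]
        have h'' : r = q (e i).1 := h'
        rw [← h'']
        exact r4
      have e1 : ∑ r ∈ (od (g l)).primeFactors, nr r p =
          ∑ r ∈ (od (g l)).primeFactors, if r = (((e i).2 : _) : ℕ) then 1 else 0 := by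
        refine sum_congr rfl fun r hr => ?_
        exact k2 r (hPrr r hr).1 (hPrr r hr).2
      rw [e1, sum_ite_eq' _ (((e i).2 : _) : ℕ) fun _ => (1 : ZMod 2), k3]
      have e2 : (if (((e i).2 : _) : ℕ) ∈ (od (g l)).primeFactors then (1 : ZMod 2) else 0) +
          (if g l % 2 = 1 then 0 else if (((e i).2 : _) : ℕ) = 2 then 1 else 0) =
          if (((e i).2 : _) : ℕ) ∣ g l then 1 else 0 := by
        by_cases hr : (((e i).2 : _) : ℕ) = 2
        · rw [hr, if_pos rfl, if_neg (fun h' => by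
            have := Nat.dvd_of_mem_primeFactors h'
            omega), zero_add]
          by_cases hg2 : g l % 2 = 1
          · rw [if_pos hg2, if_neg (by omega)]
          · rw [if_neg hg2, if_pos (by omega)]
        · rw [if_neg hr]
          have e3 : (((e i).2 : _) : ℕ) ∈ (od (g l)).primeFactors ↔
              (((e i).2 : _) : ℕ) ∣ g l := by
            rw [Nat.mem_primeFactors, dvd_od (hsq l) p1 hr]
            exact ⟨fun h' => h'.2.1, fun h' => ⟨p1, h', o1.ne_zero⟩⟩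
          simp only [e3]
          split_ifs <;> simp
      rw [e2]
      have : ∀ x y : ZMod 2, x + y + y = x := by decide
      exact this _ _
    intro l l' hl hl'
    exact (key l hl).trans (key l' hl').symm
  · obtain ⟨h1, h2, h3'⟩ := hcc (e i)
    exact ⟨h1, h2⟩
  · intro l l' hne hff
    rw [(hs l).fd, (hs l').fd] at hff
    by_contra hcon
    push Not at hcon
    apply hne
    refine hinj l l' hff ?_
    have hdv : ∀ l l', f l = f l' → (∀ i, (e i).1 = f l →
        (if (((e i).2 : _) : ℕ) ∣ g l then (1 : ZMod 2) else 0) =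
        if (((e i).2 : _) : ℕ) ∣ g l' then 1 else 0) → (g l).primeFactors ⊆ (g l').primeFactors := by
      intro l l' hf hll p hp
      have hpp := Nat.prime_of_mem_primeFactors hp
      have hpd := Nat.dvd_of_mem_primeFactors hp
      have hmem : p ∈ Ps (f l) := by
        rw [hPs, mem_filter, Nat.mem_primeFactors]
        exact ⟨⟨hpp, hu l p hpp hpd, hc.pos.ne'⟩, fun h' => hpr l (by rw [← h']; exact hpd)⟩
      have h1 := hll (e.symm ⟨f l, ⟨p, hmem⟩⟩) (by rw [e.apply_symm_apply])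
      rw [e.apply_symm_apply] at h1
      simp only at h1
      rw [if_pos hpd] at h1
      rw [Nat.mem_primeFactors]
      refine ⟨hpp, ?_, (hsq l').ne_zero⟩
      by_contra hnd
      rw [if_neg hnd] at h1
      exact one_ne_zero h1
    rw [(hs l).fd] at hcon
    rw [← Nat.prod_primeFactors_of_squarefree (hsq l),
      ← Nat.prod_primeFactors_of_squarefree (hsq l')]
    rw [subset_antisymm (hdv l l' hff hcon)
      (hdv l' l hff.symm fun i hi => (hcon i (by rw [hi, hff])).symm)]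

/-- the pattern of a family of numbers -/
def PatX {t : ℕ} (f : Fin t → Bool) (n : Fin t → ℕ) (β : Fin t → Bool) : Prop :=
  ∀ l, (Good (f l) (n l) ↔ β l = true)

/-- **The joint law of the numbers `g l * m`.** -/
theorem baseX (hDJ : S_DJX) (h7 : S_CLS) (h3 : S_CLS3) (hcs : S_CSX) (hC : ∀ f, S_CEL f)
    {u a : ℕ} (hc : Cp u a) (h168 : 168 ∣ u) {t : ℕ} (f : Fin t → Bool)
    (g : Fin t → ℕ) (hsq : ∀ l, Squarefree (g l)) (hpr : ∀ l, ¬ q (f l) ∣ g l)
    (hu : ∀ l p, p.Prime → p ∣ g l → p ∣ u)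
    (hinj : ∀ l l', f l = f l' → g l = g l' → l = l')
    (hpar : ∀ l, f l = true → g l % 2 = 0 ∨ (g l * a) % 4 = 1) (β : Fin t → Bool) :
    ∀ ε : ℝ, 0 < ε → ∀ᶠ Y : ℕ in atTop,
      |(((GS u a Y).filter fun m => PatX f (fun l => g l * m) β).card : ℝ) -
        limX f β * ((GS u a Y).card : ℝ)| ≤ ε * Y := by
  choose E hE using hC
  have hex : ∀ l, ∃ s : Sy, SysOK (f l) (E (f l)) s (g l) u a ∧
      ∀ m, Squarefree m → m % u = a → (Good (f l) (g l * m) ↔ GdS s m.primeFactors) :=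
    fun l => hE (f l) u a (g l) hc h168 (hsq l) (hpr l) (hu l) (hpar l)
  choose s hs hs' using hex
  obtain ⟨n, cl, fr, x, cs, hy⟩ := hyX h7 h3 hcs hc h168 f g E s hs hsq hpr hu hinj
  intro ε hε
  have h4 : 4 ∣ u := (by norm_num : 4 ∣ 168).trans h168
  have hff : (fun l => (s l).d.f) = f := funext fun l => (hs l).fd
  filter_upwards [hDJ t n s u a cl fr x cs hy β ε hε] with Y hY
  rw [hff] at hY
  have h1 := GS_card hc h4 Y (PatS s β)
  have h2 := GS_card hc h4 Y fun _ => True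
  rw [Finset.filter_true, Finset.filter_true] at h2
  rw [h1, h2] at hY
  have h3' : (GS u a Y).filter (fun m => PatX f (fun l => g l * m) β) =
      (GS u a Y).filter fun D => PatS s β D.primeFactors := by
    refine Finset.filter_congr fun m hm => ?_
    rw [GS, mem_filter] at hm
    unfold PatS PatX
    refine forall_congr' fun l => ?_
    rw [hs' l m hm.2.1 hm.2.2]
  rw [h3']
  exact hY

/-! ### all square-free integers -/

/-- the square-free part prime to the ramified prime of the field -/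
def DnF (f : Bool) (n : ℤ) : ℕ := if f = true then Pool.Agent.L0h74.E3.Dn n else
  Pool.Agent.L0h74.AP.Dn n

theorem DnF_sq (f : Bool) (n : ℤ) : Squarefree (DnF f n) := by
  cases f
  · exact Pool.Agent.L0h74.AP.Dn_sq n
  · exact Pool.Agent.L0h74.E3.Dn_sq n

theorem DnF_q (f : Bool) (n : ℤ) : ¬ q f ∣ DnF f n := by
  cases f
  · exact Pool.Agent.L0h74.AP.Dn_seven n
  · exact Pool.Agent.L0h74.E3.Dn_three n

theorem mem_DnF (f : Bool) {n : ℤ} {p : ℕ} (hp : p.Prime) :
    p ∣ DnF f n ↔ p ≠ q f ∧ n.natAbs.factorization p % 2 = 1 := by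
  have hpf : n.natAbs.factorization p % 2 = 1 → p ∈ n.natAbs.primeFactors := by
    intro h
    rw [← Nat.support_factorization, Finsupp.mem_support_iff]
    omega
  cases f
  · show p ∣ Pool.Agent.L0h74.AP.Dn n ↔ _
    rw [Pool.Agent.L0h74.AP.Dn_dvd hp, Pool.Agent.L0h2.P.mem_Ds]
    exact Iff.rfl
  · show p ∣ Pool.Agent.L0h74.E3.Dn n ↔ _
    rw [Pool.Agent.L0h74.E3.Dn_dvd hp, Pool.Agent.L0h74.E3.Ds, mem_filter]
    exact ⟨fun h => h.2, fun h => ⟨hpf h.2, h⟩⟩

theorem DnF_dvd (f : Bool) {n : ℤ} {p : ℕ} (hp : p.Prime) (h : p ∣ DnF f n) : p ∣ n.natAbs := by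
  have h1 := ((mem_DnF f hp).1 h).2
  by_contra h2
  rw [Nat.factorization_eq_zero_of_not_dvd h2] at h1
  omega

theorem DnF_mul (f : Bool) {u : ℕ} (hu : 42 ∣ u) {s : ℤ} (hs : s = 1 ∨ s = -1) {g m : ℕ}
    (hg0 : g ≠ 0) (hgu : g ∣ u) {d : ℤ} (hd0 : d ≠ 0)
    (hd : ∀ p, p.Prime → p ∣ d.natAbs → p ∣ u) (hm : Squarefree m) (hc : Nat.Coprime m u) :
    DnF f (s * g * m * d) = DnF f (g * d) * m := by
  cases f
  · exact Pool.Agent.L0h74.AP.Dn_mul ((by norm_num : 14 ∣ 42).trans hu) hs hg0 hgu hd0 hd hm hc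
  · exact Pool.Agent.L0h74.E3.Dn_mul ((by norm_num : 6 ∣ 42).trans hu) hs hg0 hgu hd0 hd hm hc

theorem DnF_ext (f : Bool) {n m : ℤ}
    (h : ∀ p, p.Prime → (p ∣ DnF f n ↔ p ∣ DnF f m)) : DnF f n = DnF f m := by
  rw [← Nat.prod_primeFactors_of_squarefree (DnF_sq f n),
    ← Nat.prod_primeFactors_of_squarefree (DnF_sq f m)]
  congr 1
  ext p
  rw [Nat.mem_primeFactors, Nat.mem_primeFactors]
  exact ⟨fun h1 => ⟨h1.1, (h p h1.1).1 h1.2.1, (DnF_sq f m).ne_zero⟩,
    fun h1 => ⟨h1.1, (h p h1.1).2 h1.2.1, (DnF_sq f n).ne_zero⟩⟩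

/-- the square-free part of `g d` determines that of `d` -/
theorem DnF_inj (f : Bool) {g d d' : ℤ} (hg : g ≠ 0) (hd : d ≠ 0) (hd' : d' ≠ 0)
    (h : DnF f (g * d) = DnF f (g * d')) : DnF f d = DnF f d' := by
  have hf : ∀ (e : ℤ), e ≠ 0 → ∀ p, (g * e).natAbs.factorization p =
      g.natAbs.factorization p + e.natAbs.factorization p := by
    intro e he p
    rw [Int.natAbs_mul, Nat.factorization_mul (Int.natAbs_ne_zero.2 hg)
      (Int.natAbs_ne_zero.2 he)]
    rfl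
  refine DnF_ext f fun p hp => ?_
  have h3 : p ∣ DnF f (g * d) ↔ p ∣ DnF f (g * d') := by rw [h]
  rw [mem_DnF f hp, mem_DnF f hp, hf d hd, hf d' hd'] at h3
  rw [mem_DnF f hp, mem_DnF f hp]
  constructor
  · rintro ⟨h4, h5⟩
    refine ⟨h4, ?_⟩
    by_contra h6
    rcases Nat.mod_two_eq_zero_or_one (g.natAbs.factorization p) with h7 | h7
    · have := (h3.1 ⟨h4, by omega⟩).2
      omega
    · have := (h3.2 ⟨h4, by omega⟩).2
      omega
  · rintro ⟨h4, h5⟩
    refine ⟨h4, ?_⟩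
    by_contra h6
    rcases Nat.mod_two_eq_zero_or_one (g.natAbs.factorization p) with h7 | h7
    · have := (h3.2 ⟨h4, by omega⟩).2
      omega
    · have := (h3.1 ⟨h4, by omega⟩).2
      omega

/-- the twist by `n` has root number one -/
def RP (f : Bool) (n : ℤ) : Prop := if f = true then Pool.Agent.L0h74.E3.RootPlus n else
  Pool.Agent.L0h74.AP.RootPlus n

/-- **The joint law in the sets of square-free integers defined by conditions on the class.** -/
theorem mainX (hDJ : S_DJX) (h7 : S_CLS) (h3 : S_CLS3) (hcs : S_CSX) (hC : ∀ f, S_CEL f)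
    {u : ℕ} (hu : 168 ∣ u) (hu0 : 0 < u)
    {t : ℕ} (f : Fin t → Bool) (d : Fin t → ℤ) (hd0 : ∀ l, d l ≠ 0)
    (hd : ∀ l p, p.Prime → p ∣ (d l).natAbs → p ∣ u)
    (hinj : ∀ l l', f l = f l' → DnF (f l) (d l) = DnF (f l) (d l') → l = l')
    {N : ℤ → ℕ} (hNF : HtFn u N) {T : ℤ → Prop} (hT : ClassFn u T)
    (hTR : ∀ e, T e → ∀ l, f l = true → RP (f l) (e * d l)) {e₀ : ℤ} (he₀ : Squarefree e₀)
    (hTe₀ : T e₀) (β : Fin t → Bool) :
    Tendsto (fun X : ℕ =>
      ((cnt N (fun e => T e ∧ PatX f (fun l => DnF (f l) (e * d l)) β) X : ℕ) : ℝ) /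
      ((cnt N T X : ℕ) : ℝ)) atTop (𝓝 (limX f β)) := by
  have hu14 : 14 ∣ u := (by norm_num : 14 ∣ 168).trans hu
  have hu6 : 6 ∣ u := (by norm_num : 6 ∣ 168).trans hu
  have hu42 : 42 ∣ u := (by norm_num : 42 ∣ 168).trans hu
  have hu4 : 4 ∣ u := (by norm_num : 4 ∣ 168).trans hu
  refine Pool.Agent.L0h74.E3.ratioT hu14 hu0 hNF hT he₀ hTe₀
    (fun e => PatX f (fun l => DnF (f l) (e * d l)) β) (limX f β) ?_
  intro s g a hs hg hgu hc hTm hex ε hε
  have hg0 : (g : ℤ) ≠ 0 := by exact_mod_cast hg.ne_zero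
  have hD : ∀ l p, p.Prime → p ∣ DnF (f l) (g * d l) → p ∣ u := by
    intro l p hp hdp
    have h1 := DnF_dvd (f l) hp hdp
    rw [Int.natAbs_mul, Int.natAbs_natCast] at h1
    rcases (Nat.Prime.dvd_mul hp).1 h1 with h2 | h2
    · exact h2.trans hgu
    · exact hd l p hp h2
  have hcop : ∀ m : ℕ, m % u = a → Nat.Coprime m u := by
    intro m hm
    rw [Nat.coprime_iff_gcd_eq_one, Nat.gcd_comm, Nat.gcd_rec, hm]
    exact hc.cop
  have hpar : ∀ l, f l = true →
      DnF (f l) (g * d l) % 2 = 0 ∨ (DnF (f l) (g * d l) * a) % 4 = 1 := by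
    intro l hl
    obtain ⟨m, hm0, hma, hms⟩ := hex
    have h1 := hTR _ (hTm m hm0 hma hms) l hl
    rw [hl] at h1 ⊢
    have h1' : Pool.Agent.L0h74.E3.RootPlus (s * g * m * d l) := h1
    show Pool.Agent.L0h74.E3.Dn (g * d l) % 2 = 0 ∨ (Pool.Agent.L0h74.E3.Dn (g * d l) * a) % 4 = 1
    have hm2 : m % 4 = a % 4 := by
      rw [← hma, Nat.mod_mod_of_dvd m hu4]
    have h2 : (Pool.Agent.L0h74.E3.Dn (g * d l) * m) % 4 =
        (Pool.Agent.L0h74.E3.Dn (g * d l) * a) % 4 := by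
      rw [Nat.mul_mod, hm2, ← Nat.mul_mod]
    have h3 : m % 2 = 1 := by
      have h5 : Nat.Coprime m 2 :=
        Nat.Coprime.coprime_dvd_right ((by norm_num : 2 ∣ 168).trans hu) (hcop m hma)
      rw [Nat.coprime_comm, Nat.Prime.coprime_iff_not_dvd Nat.prime_two] at h5
      omega
    obtain ⟨-, h4⟩ := h1'
    rw [Pool.Agent.L0h74.E3.Dn_mul hu6 hs hg.ne_zero hgu (hd0 l) (hd l) hms (hcop m hma)] at h4
    rcases h4 with h4 | ⟨h4, -⟩
    · right
      rw [← h2]
      exact h4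
    · left
      rw [Nat.mul_mod, h3] at h4
      omega
  filter_upwards [baseX hDJ h7 h3 hcs hC hc hu f (fun l => DnF (f l) (g * d l))
    (fun l => DnF_sq _ _) (fun l => DnF_q _ _) hD (fun l l' hff hll => hinj l l' hff
      (DnF_inj (f l) hg0 (hd0 l) (hd0 l') (by rw [hll, hff]))) hpar β ε hε]
    with Y hY
  rw [show (GS u a Y).filter (fun m : ℕ => PatX f (fun l => DnF (f l) ((s * g * m) * d l)) β) =
      (GS u a Y).filter (fun m => PatX f (fun l => DnF (f l) (g * d l) * m) β) from ?_]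
  · exact hY
  · refine Finset.filter_congr fun m hm => ?_
    rw [GS, mem_filter] at hm
    have h1 : (fun l => DnF (f l) ((s * g * m) * d l)) = fun l => DnF (f l) (g * d l) * m := by
      funext l
      rw [DnF_mul (f l) hu42 hs hg.ne_zero hgu (hd0 l) (hd l) hm.2.1 (hcop m hm.2.2)]
    rw [h1]

end Pool.Agent.L0h86.XF
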