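import Pool.Agent.L0h86.XF.Stm
import Pool.Agent.L0h74.E3.LX
import Pool.Agent.L0h1.EV.All7

/-!
# Project XF (helper86): the interface of the modules CEL7 and CEL3

`Good f D`: the criterion for the square-free number `D`, for the field `f` (`false`: the twists of
`X_0(49)`, `true`: the twists of `X_0(36)`). `SysOK f E s g u a`: the system `s` of the numbers `g m`,
`m` in the class `a` modulo `u`; `E` is the diagonal at the primes `1` modulo four which split (it does
not depend on `g`).
-/

set_option autoImplicit false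
set_option linter.unusedVariables false

open scoped Classical

namespace Pool.Agent.L0h86.XF

open Finset
open Pool.Agent.Y703.CQ (nr)
open Pool.Agent.L0h74.EV (n2 Cl)
open Pool.Agent.L0h74.AP (Cp)
open Pool.Agent.L0h1.EV (TT)
open Pool.Agent.L0h74.E3 (Cr)

/-- the criterion -/
def Good (f : Bool) (D : ℕ) : Prop := if f = true then Cr D else TT D

/-- the odd part of a square-free number -/
def od (g : ℕ) : ℕ := if g % 2 = 1 then g else g / 2

/-- the facts on the system of the numbers `g m` -/
structure SysOK (f : Bool) (E : ℕ → ZMod 2) (s : Sy) (g u a : ℕ) : Prop where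
  fd : s.d.f = f
  t4 : s.d.t < 4
  recA : RecA f s.d.A
  W : ∀ v ∈ s.W, PrO f v
  Wu : ∀ p, some p ∈ s.W → p ∣ u
  par : ∀ S, Cl u a S → (kW s + kd f S) % 2 = 0
  dgq : ∀ q, ty f q = 2 →
    dg s q = E q + (∑ r ∈ (od g).primeFactors, nr r q + if g % 2 = 1 then 0 else n2 q)

/-- CEL7 and CEL3 -/
def S_CEL (f : Bool) : Prop := ∃ E : ℕ → ZMod 2, ∀ u a g : ℕ, Cp u a → 168 ∣ u → Squarefree g →
  ¬ (if f = true then 3 else 7) ∣ g → (∀ p, p.Prime → p ∣ g → p ∣ u) →
  (f = true → g % 2 = 0 ∨ (g * a) % 4 = 1) →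
  ∃ s : Sy, SysOK f E s g u a ∧
    ∀ m, Squarefree m → m % u = a → (Good f (g * m) ↔ GdS s m.primeFactors)

end Pool.Agent.L0h86.XF
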